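import Pool.Agent.Lib.STD.Names

/-!
# Module STD.Dom: the ground functions are dominating

PROOF of dom_cover: density. If `b ≤ ⨆ h, z h` fails (`z h = ⨅ n, ⨆ m, ⨆ _ : m ≤ h n, y n m`), let `p = b ⊓ (⨆ h, z h)ᶜ ≠ ⊥`. `hB`
(WDist) with index type `ULift ℕ`, `x n m = y n m`: `q ≤ p`, `q ≠ ⊥` and finite `F n` with `q ≤ ⨆ i ∈ F n, y n i`; let `h n` be a bound of
`F n` (`Finset.sup`): `q ≤ z h`, contradiction.

PROOF of dominating_gD. `w = q U omega`. Elements of gD are functions: of_mem_gD, isFun_gN (BV.isFun). Let g be a function in `Mod U`,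
`g = q U G` (q_surj), `y n m = bv (fun U => App (E U) (q U G) (q U (num n)) (q U (num m)))`, `b = bv (fun U => IsFun (E U) (q U G) (q U omega) (q U omega))`.
For each n, `b ≤ ⨆ m, y n m` (iSup_app_mem in STD.Names with t = num n, E_num_omega; Ultra.le_of_forall). By dom_cover `⨆ h, z h` is in U; of_iSup with the BV
predicate `P U = ∃ f, E f gD ∧ ∃ m, E m omega ∧ ∀ n, E n omega → ¬ E n m → ∀ a b, App G n a → App f n b → (E a b ∨ a = b)`,
`Q U = IsFun ..`: `z h ∈ U`: take `f = gN h`, `m = num 0`; for n in omega, App G n a, App (gN h) n b: case analysis with of_mem_omega for n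
(n = num n'), for b (b is in omega as isFun_gN; b = num k with h n' = k by app_gN), and of_iSup over `⨆ m, ⨆ _ : m ≤ h n', y n' m` (which is in U because
`z h ∈ U`): `y n' m ∈ U` with `m ≤ h n'`, so a = num m by uniqueness (app_unique, G is a function), and
`m < h n'` gives E a b (E_num_num), `m = h n'` gives a = b. All predicates are BV (P here: `E (q U a) (q U b) ∨ q U a = q U b`).
-/

set_option autoImplicit false

namespace Pool.Agent.Lib.STD

open Set Pool.Agent.Lib.BVU Pool.Agent.Lib.BVU.bSet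
open Pool.Agent.Lib.BVM (Fml Sat ModelZFC IsEmp IsSucc IsInductive IsOmega IsUPair IsPair App IsFunOn IsFun IsSurj)

universe u

variable {B : Type u} [CompleteBooleanAlgebra B]

theorem dom_cover (hB : WDist B) (b : B) (y : ℕ → ℕ → B) (hy : ∀ n, b ≤ ⨆ m, y n m) :
    b ≤ ⨆ h : ℕ → ℕ, ⨅ n, ⨆ m, ⨆ _ : m ≤ h n, y n m := by
  by_contra hcon
  set S : B := ⨆ h : ℕ → ℕ, ⨅ n, ⨆ m, ⨆ _ : m ≤ h n, y n m with hS
  have hp : b ⊓ Sᶜ ≠ ⊥ := by
    intro h0
    apply hcon
    have h1 := le_compl_iff_disjoint_right.2 (disjoint_iff.2 h0)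
    rwa [compl_compl] at h1
  obtain ⟨r, hr1, hr2, hr3⟩ := hB (ULift.{u} ℕ) (fun n m => y n m.down) (b ⊓ Sᶜ) hp (fun n =>
    inf_le_left.trans ((hy n).trans (iSup_le fun m =>
      le_iSup (fun i : ULift.{u} ℕ => y n i.down) (ULift.up m))))
  choose F hF using hr3
  apply hr2
  have h2 : r ≤ S := by
    refine le_trans ?_ (le_iSup (fun h : ℕ → ℕ => ⨅ n, ⨆ m, ⨆ _ : m ≤ h n, y n m)
      (fun n => (F n).sup fun i => i.down))
    refine le_iInf fun n => (hF n).trans (iSup_le fun i => iSup_le fun hi => ?_)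
    exact le_iSup_of_le i.down (le_iSup_of_le (Finset.le_sup (f := fun i : ULift.{u} ℕ => i.down) hi)
      le_rfl)
  have h3 : r ≤ Sᶜ := hr1.trans inf_le_right
  have h4 : r ≤ S ⊓ Sᶜ := le_inf h2 h3
  rwa [inf_compl_eq_bot, le_bot_iff] at h4

theorem dominating_gD (hB : WDist B) (U : Ultra B) : Dominating (E U) (q U (gD B)) := by
  refine ⟨q U omega, isOmega_omega U, ?_, ?_⟩
  · intro f hf
    obtain ⟨Z, rfl⟩ := q_surj f
    refine of_mem_gD (Z := Z) (P := fun U => IsFun (E U) (q U Z) (q U omega) (q U omega))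
      (Q := fun _ => True) (BV.isFun _ _ _) (BV.const True) (fun g U hZ _ => ?_) hf trivial
    rw [hZ]
    exact isFun_gN g U
  · intro g hg
    obtain ⟨G, rfl⟩ := q_surj g
    set y : ℕ → ℕ → B := fun n m => bv (fun U => App (E U) (q U G) (q U (num n)) (q U (num m)))
      with hy
    set b : B := bv (fun U => IsFun (E U) (q U G) (q U omega) (q U omega)) with hb
    have hyb : ∀ n, b ≤ ⨆ m, y n m := fun n => Ultra.le_of_forall fun V hV =>
      iSup_app_mem (((BV.isFun _ _ _).iff V).2 hV) (E_num_omega V n)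
    have hbU : b ∈ U := ((BV.isFun _ _ _).iff U).1 hg
    have h1 := Ultra.mono hbU (dom_cover hB b y hyb)
    refine of_iSup (t := fun h : ℕ → ℕ => ⨅ n, ⨆ m, ⨆ _ : m ≤ h n, y n m)
      (P := fun U => ∃ f, E U f (q U (gD B)) ∧ ∃ m, E U m (q U omega) ∧ ∀ n, E U n (q U omega) →
        ¬ E U n m → ∀ a b, App (E U) (q U G) n a → App (E U) f n b → (E U a b ∨ a = b))
      (Q := fun U => IsFun (E U) (q U G) (q U omega) (q U omega)) ?_ (BV.isFun _ _ _) ?_ h1 hg
    · exact BV.ex fun f => (BV.mem _ _).and (BV.ex fun m => (BV.mem _ _).and (BV.all fun n =>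
        (BV.mem _ _).imp ((BV.mem _ _).not.imp (BV.all fun a => BV.all fun b =>
          (BV.app _ _ _).imp ((BV.app _ _ _).imp ((BV.mem _ _).or (BV.eq _ _)))))))
    · intro h V hh hG
      refine ⟨q V (gN B h), E_gD h V, q V (num 0), E_num_omega V 0, ?_⟩
      intro n hn _ a c hga hgc
      obtain ⟨N, rfl⟩ := q_surj n
      obtain ⟨A, rfl⟩ := q_surj a
      obtain ⟨C, rfl⟩ := q_surj c
      refine of_mem_omega (Z := N) (P := fun U => E U (q U A) (q U C) ∨ q U A = q U C)
        (Q := fun U => (⨅ n, ⨆ m, ⨆ _ : m ≤ h n, y n m) ∈ U ∧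
          (IsFun (E U) (q U G) (q U omega) (q U omega) ∧
          (App (E U) (q U G) (q U N) (q U A) ∧ App (E U) (q U (gN B h)) (q U N) (q U C))))
        ((BV.mem _ _).or (BV.eq _ _))
        ((BV.of_mem _).and ((BV.isFun _ _ _).and ((BV.app _ _ _).and (BV.app _ _ _))))
        (fun n U hN hQ => ?_) hn ⟨hh, hG, hga, hgc⟩
      obtain ⟨hh, hG, hga, hgc⟩ := hQ
      rw [hN] at hga hgc
      have hC : E U (q U C) (q U omega) := (isFun_gN h U).2 _ _ hgc
      refine of_mem_omega (Z := C) (P := fun U => E U (q U A) (q U C) ∨ q U A = q U C)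
        (Q := fun U => (⨅ n, ⨆ m, ⨆ _ : m ≤ h n, y n m) ∈ U ∧
          (IsFun (E U) (q U G) (q U omega) (q U omega) ∧
          (App (E U) (q U G) (q U (num n)) (q U A) ∧
            App (E U) (q U (gN B h)) (q U (num n)) (q U C))))
        ((BV.mem _ _).or (BV.eq _ _))
        ((BV.of_mem _).and ((BV.isFun _ _ _).and ((BV.app _ _ _).and (BV.app _ _ _))))
        (fun k U hk hQ => ?_) hC ⟨hh, hG, hga, hgc⟩
      obtain ⟨hh, hG, hga, hgc⟩ := hQ
      rw [hk] at hgc
      have hhk : h n = k := app_gN.1 hgc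
      have hn2 : (⨆ m, ⨆ _ : m ≤ h n, y n m) ∈ U := Ultra.mono hh (iInf_le _ n)
      refine of_iSup (t := fun m => ⨆ _ : m ≤ h n, y n m)
        (P := fun U => E U (q U A) (q U C) ∨ q U A = q U C)
        (Q := fun U => q U C = q U (num k) ∧ (IsFun (E U) (q U G) (q U omega) (q U omega) ∧
          App (E U) (q U G) (q U (num n)) (q U A)))
        ((BV.mem _ _).or (BV.eq _ _))
        ((BV.eq _ _).and ((BV.isFun _ _ _).and (BV.app _ _ _)))
        (fun m U hm hQ => ?_) hn2 ⟨hk, hG, hga⟩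
      refine of_iSup (t := fun _ : m ≤ h n => y n m)
        (P := fun U => E U (q U A) (q U C) ∨ q U A = q U C)
        (Q := fun U => q U C = q U (num k) ∧ (IsFun (E U) (q U G) (q U omega) (q U omega) ∧
          App (E U) (q U G) (q U (num n)) (q U A)))
        ((BV.mem _ _).or (BV.eq _ _))
        ((BV.eq _ _).and ((BV.isFun _ _ _).and (BV.app _ _ _)))
        (fun hmh U hm hQ => ?_) hm hQ
      obtain ⟨hk, hG, hga⟩ := hQ
      have h5 : App (E U) (q U G) (q U (num n)) (q U (num m)) := ((BV.app _ _ _).iff U).2 hm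
      have h6 : q U A = q U (num m) := app_unique hG.1 (E_num_omega U n) hga h5
      rw [h6, hk]
      rcases lt_or_eq_of_le hmh with h7 | h7
      · exact Or.inl (E_num_num.2 (hhk ▸ h7))
      · exact Or.inr (by rw [h7, hhk])

end Pool.Agent.Lib.STD
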