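import Pool.Agent.Lib.STD.SpecB
import Pool.Agent.Lib.STD.Dom

/-!
# Module STD.ModelB: the model theorem
-/

set_option autoImplicit false

namespace Pool.Agent.Lib.STD

open Set Pool.Agent.Lib.BVU Pool.Agent.Lib.BVU.bSet
open Pool.Agent.Lib.BVM (Fml Sat ModelZFC IsEmp IsSucc IsInductive IsOmega IsUPair IsPair App IsFunOn IsFun IsSurj)

universe u

theorem stGtD_of_alg {B : Type u} [CompleteBooleanAlgebra B] {W : Type} [LinearOrder W]
    [WellFoundedLT W] (hW : CtblBdd W) (hB : WDist B) {c : W → (ℕ → ℕ) → B} (hc : ColName c)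
    (hS : AllSpecial B W) (U : Ultra B) : StGtD (E U) := by
  refine ⟨q U (gD B), dominating_gD hB U, ?_⟩
  intro T R h1 h2 h3 h4
  obtain ⟨T, rfl⟩ := q_surj T
  obtain ⟨R, rfl⟩ := q_surj R
  obtain ⟨j, h4⟩ := h4
  obtain ⟨j, rfl⟩ := q_surj j
  set b : B := bv (fun U => IsTree (E U) (q U T) (q U R) ∧ CtblPred (E U) (q U T) (q U R) ∧
    (∀ c, ChainIn (E U) (q U T) (q U R) c → IsCtbl (E U) c) ∧
    IsInj (E U) (q U j) (q U T) (q U (gD B))) with hb
  have hBV : BV (fun U => IsTree (E U) (q U T) (q U R) ∧ CtblPred (E U) (q U T) (q U R) ∧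
      (∀ c, ChainIn (E U) (q U T) (q U R) c → IsCtbl (E U) c) ∧
      IsInj (E U) (q U j) (q U T) (q U (gD B))) :=
    (BV_isTree T R).and ((BV_ctblPred T R).and ((BV_chainsCtbl T R).and (BV_isInj j T (gD B))))
  have hbU : ∀ U : Ultra B, b ∈ U → IsTree (E U) (q U T) (q U R) ∧
      CtblPred (E U) (q U T) (q U R) ∧
      (∀ c, ChainIn (E U) (q U T) (q U R) c → IsCtbl (E U) c) ∧
      IsInj (E U) (q U j) (q U T) (q U (gD B)) := fun U h => (hBV.iff U).2 h
  have hU : b ∈ U := (hBV.iff U).1 ⟨h1, h2, h3, h4⟩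
  obtain ⟨τ, a, hC⟩ := exists_coding hc T j b (fun U h => (hbU U h).2.2.2)
  obtain ⟨F, hF⟩ := hS (treeB R τ a)
    (treeB_tree hB hW hC (fun U h => (hbU U h).1) (fun U h => (hbU U h).2.1))
    (treeB_noChain hB hW hC (fun U h => (hbU U h).2.2.1))
  exact isSpecial_of_BSpec hC (fun U h => (hbU U h).1) hF U hU

theorem exists_model {B : Type u} [CompleteBooleanAlgebra B] [Nontrivial B] {W : Type} [LinearOrder W]
    [WellFoundedLT W] (hW : CtblBdd W) (hB : WDist B) {c : W → (ℕ → ℕ) → B} (hc : ColName c)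
    (hS : AllSpecial B W) :
    ∃ (M : Type (u + 1)) (E : M → M → Prop), ModelZFC M E ∧ StGtD E := by
  obtain ⟨U, -⟩ := Ultra.exists_mem (B := B) (b := ⊤) top_ne_bot
  exact ⟨Mod U, E U, modelZFC U, stGtD_of_alg hW hB hc hS U⟩

end Pool.Agent.Lib.STD
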