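import Pool.Agent.Lib.STD.NiceA

/-!
# Module STD.NiceB: every chain of the nice tree is countable; transfer of the specialisation

PROOFS.
* niceLt_noch (hB, NoChain R): let `c` be a chain for niceLt and `e ≠ ⊥`. `d s = ⨆ v, c (v, s)`: `d s ⊓ d t ≤ R s t ⊔ R t s` for `s ≠ t` (inf_iSup_eq,
  iSup_inf_eq). So `⨅ v, ⨆ w > v, d w = ⊥`; hence for some `v₀` `e ⊓ (⨆ w > v₀, d w)ᶜ ≠ ⊥` (otherwise `e ≤ ⨅ ..`); call this `e₁`: `e₁ ⊓ c (v, s) = ⊥` for `v₀ < s`. For fixed `s` and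
  `v ≠ v'`: `c (v, s) ⊓ c (v', s) ≤ R s s ⊔ R s s = ⊥`. `Iic v₀` is countable and nonempty: enumerate it by `f : ℕ → W` (`(countable_Iic v₀).exists_eq_range`).
  WDist for `x n : Option W → B`, `some v ↦ c (v, f n)`, `none ↦ (⨆ v, c (v, f n))ᶜ`, index type `ULift (Option W)`: `e' ≤ e₁`, `e' ≠ ⊥`,
  finite `F n` with `e' ≤ ⨆ i ∈ F n, x n i`. `C = {(v, s) | ∃ n, s = f n ∧ some v ∈ F n}` is countable. For `(v, s) ∉ C`: if `v₀ < s` done; otherwise `s = f n`,
  `some v ∉ F n`, and `e' ⊓ c (v, s) ≤ ⨆ i ∈ F n, x n i ⊓ c (v, s) = ⊥`.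
* bspec_of_nice: sup: `⨆ k, ⨆ v, nuV R s v ⊓ F (v, s) k = ⨆ v, nuV R s v ⊓ ⨆ k, F (v, s) k = ⨆ v, nuV R s v = ⊤` (iSup_comm, inf_iSup_eq, h1, nuV_sup).
  disj: iSup_inf_eq, inf_iSup_eq, for `v ≠ v'` nuV_disj, for `v = v'` h2. inj: for all `v`, `w` the element
  `nuV R s v ⊓ F (v, s) k ⊓ (nuV R t w ⊓ F (w, t) k) ⊓ R s t` is below `F (v, s) k ⊓ F (w, t) k ⊓ niceLt R (v, s) (w, t) = ⊥`.
-/

set_option autoImplicit false

namespace Pool.Agent.Lib.STD

open Set Pool.Agent.Lib.BSM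

universe u

variable {B : Type u} [CompleteBooleanAlgebra B]

theorem niceLt_noch (hB : WDist B) {R : W → W → B} (hR : BTree R) (hN : NoChain R) :
    NOCH (niceLt R) := by
  intro c hc e he
  have hchain : ∀ s t, s ≠ t → (⨆ v, c (v, s)) ⊓ (⨆ v, c (v, t)) ≤ R s t ⊔ R t s := by
    intro s t hst
    rw [iSup_inf_eq]
    refine iSup_le fun v => ?_
    rw [inf_iSup_eq]
    refine iSup_le fun w => ?_
    refine (hc (v, s) (w, t) (fun h => hst (congrArg Prod.snd h))).trans ?_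
    exact sup_le_sup inf_le_left inf_le_left
  have h0 := hN (fun s => ⨆ v, c (v, s)) hchain
  obtain ⟨v₀, hv₀⟩ : ∃ v₀, e ⊓ (⨆ w, ⨆ _ : v₀ < w, ⨆ v, c (v, w))ᶜ ≠ ⊥ := by
    by_contra hcon
    push Not at hcon
    apply he
    rw [eq_bot_iff, ← h0]
    refine le_iInf fun v => ?_
    have h5 := hcon v
    rwa [← disjoint_iff, disjoint_compl_right_iff] at h5
  have hA : ∀ v s, v₀ < s → c (v, s) ⊓ (e ⊓ (⨆ w, ⨆ _ : v₀ < w, ⨆ v, c (v, w))ᶜ) = ⊥ := by
    intro v s hs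
    rw [eq_bot_iff]
    have h6 : c (v, s) ≤ ⨆ w, ⨆ _ : v₀ < w, ⨆ v, c (v, w) :=
      (le_iSup (fun v => c (v, s)) v).trans
        (le_iSup₂ (f := fun w (_ : v₀ < w) => ⨆ v, c (v, w)) s hs)
    calc c (v, s) ⊓ (e ⊓ (⨆ w, ⨆ _ : v₀ < w, ⨆ v, c (v, w))ᶜ)
        ≤ (⨆ w, ⨆ _ : v₀ < w, ⨆ v, c (v, w)) ⊓ (⨆ w, ⨆ _ : v₀ < w, ⨆ v, c (v, w))ᶜ :=
          inf_le_inf h6 inf_le_right
      _ = ⊥ := inf_compl_eq_bot
      _ ≤ ⊥ := le_rfl
  have hS : ∀ v v' s, v ≠ v' → c (v, s) ⊓ c (v', s) = ⊥ := by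
    intro v v' s hv
    rw [eq_bot_iff]
    refine (hc (v, s) (v', s) (fun h => hv (congrArg Prod.fst h))).trans ?_
    refine sup_le ?_ ?_ <;> (unfold niceLt; rw [hR.irrefl, bot_inf_eq])
  obtain ⟨f, hf⟩ := (countable_Iic v₀).exists_eq_range ⟨v₀, mem_Iic.2 le_rfl⟩
  obtain ⟨e', h1, h2, h3⟩ := hB (ULift.{u} (Option W))
    (fun n i => i.down.elim (⨆ v, c (v, f n))ᶜ (fun v => c (v, f n))) _ hv₀ (by
      intro n
      refine le_trans le_top ?_
      rw [← sup_compl_eq_top (x := ⨆ v, c (v, f n))]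
      refine sup_le (iSup_le fun s => ?_) ?_
      · exact le_iSup (fun i : ULift.{u} (Option W) =>
          i.down.elim (⨆ v, c (v, f n))ᶜ (fun v => c (v, f n))) ⟨some s⟩
      · exact le_iSup (fun i : ULift.{u} (Option W) =>
          i.down.elim (⨆ v, c (v, f n))ᶜ (fun v => c (v, f n))) ⟨none⟩)
  choose F hF using h3
  have hcount : (⋃ n, {t : V | t.2 = f n ∧
      (ULift.up (some t.1) : ULift.{u} (Option W)) ∈ F n}).Countable := by
    refine Set.countable_iUnion fun n => Set.Finite.countable ?_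
    refine Set.Finite.of_finite_image
      (f := fun t : V => (ULift.up (some t.1) : ULift.{u} (Option W)))
      ((F n).finite_toSet.subset ?_) ?_
    · rintro _ ⟨t, ht, rfl⟩
      exact ht.2
    · intro t ht t' ht' h
      have h7 : t.1 = t'.1 := by simpa using h
      exact Prod.ext h7 (ht.1.trans ht'.1.symm)
  refine ⟨e', h1.trans inf_le_left, h2, _, hcount, ?_⟩
  rintro ⟨v, s⟩ hs
  by_cases hsv : v₀ < s
  · rw [eq_bot_iff, ← hA v s hsv]
    exact inf_le_inf le_rfl h1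
  · have h8 : s ∈ Set.range f := by
      rw [← hf]
      exact mem_Iic.2 (not_lt.1 hsv)
    obtain ⟨n, rfl⟩ := h8
    have hsn : (ULift.up (some v) : ULift.{u} (Option W)) ∉ F n := by
      intro hn
      exact hs (Set.mem_iUnion.2 ⟨n, rfl, hn⟩)
    rw [eq_bot_iff]
    have h9 : c (v, f n) ⊓ e' ≤
        (⨆ i ∈ F n, (i.down.elim (⨆ v, c (v, f n))ᶜ (fun v => c (v, f n)))) ⊓ c (v, f n) :=
      le_inf (inf_le_right.trans (hF n)) inf_le_left
    refine h9.trans ?_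
    rw [iSup_inf_eq]
    refine iSup_le fun i => ?_
    rw [iSup_inf_eq]
    refine iSup_le fun hi => ?_
    obtain ⟨i⟩ := i
    cases i with
    | none =>
      change (⨆ v, c (v, f n))ᶜ ⊓ c (v, f n) ≤ ⊥
      refine le_trans (inf_le_inf_left _ (le_iSup (fun v => c (v, f n)) v)) ?_
      rw [compl_inf_self]
    | some v' =>
      change c (v', f n) ⊓ c (v, f n) ≤ ⊥
      have hne : v' ≠ v := by
        rintro rfl
        exact hsn hi
      rw [hS v' v (f n) hne]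

/-- the nice tree of a Boolean valued tree -/
noncomputable def niceTree (hB : WDist B) {R : W → W → B} (hR : BTree R) (hN : NoChain R) :
    NTree B where
  lt := niceLt R
  zero := niceLt_zero hR
  irrefl := niceLt_irrefl hR
  trans := niceLt_trans hR
  comp := niceLt_comp hR
  noch := niceLt_noch hB hR hN

/-- A specialisation of the nice tree gives a specialisation of the tree. -/
theorem bspec_of_nice {R : W → W → B} (hR : BTree R) (F : V → ℕ → B)
    (h1 : ∀ s, ⨆ k, F s k = ⊤) (h2 : ∀ s k l, k ≠ l → F s k ⊓ F s l = ⊥)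
    (h3 : ∀ s t k, F s k ⊓ F t k ⊓ niceLt R s t = ⊥) :
    BSpec R (fun s k => ⨆ v, nuV R s v ⊓ F (v, s) k) := by
  refine ⟨?_, ?_, ?_⟩
  · intro s
    rw [iSup_comm]
    have h : ∀ v, (⨆ k, nuV R s v ⊓ F (v, s) k) = nuV R s v := by
      intro v
      rw [← inf_iSup_eq, h1, inf_top_eq]
    simp only [h]
    exact nuV_sup hR s
  · intro s k l hkl
    rw [eq_bot_iff, iSup_inf_eq]
    refine iSup_le fun v => ?_
    rw [inf_iSup_eq]
    refine iSup_le fun v' => ?_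
    by_cases hv : v = v'
    · subst hv
      rw [← h2 (v, s) k l hkl]
      exact inf_le_inf inf_le_right inf_le_right
    · rw [← nuV_disj R s hv]
      exact inf_le_inf inf_le_left inf_le_left
  · intro s t k
    rw [eq_bot_iff, iSup_inf_eq, iSup_inf_eq]
    refine iSup_le fun v => ?_
    rw [inf_iSup_eq, iSup_inf_eq]
    refine iSup_le fun w => ?_
    rw [← h3 (v, s) (w, t) k]
    refine le_inf (inf_le_left.trans (inf_le_inf inf_le_right inf_le_right)) ?_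
    refine le_inf inf_le_right ?_
    exact inf_le_left.trans (inf_le_inf inf_le_left inf_le_left)

end Pool.Agent.Lib.STD
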