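import Pool.Agent.Lib.BVM.Notions

/-!
# The special tree number and the dominating number inside a structure `(M, E)`
-/

namespace Pool.Agent.Lib.STD

open Pool.Agent.Lib.BVM

universe u

variable {M : Type u} (E : M → M → Prop)

/-- `f` is an injective function from `a` to `b`. -/
def IsInj (f a b : M) : Prop := IsFun E f a b ∧ ∀ x y z, App E f x z → App E f y z → x = y

/-- `a` is countable: there is an injective function from `a` to the set of natural numbers. -/
def IsCtbl (a : M) : Prop := ∃ w f, IsOmega E w ∧ IsInj E f a w

/-- `D` is a dominating set: a set of functions from `ω` to `ω` such that for every function `g` from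
`ω` to `ω` there is `f` in `D` with `g(n) ≤ f(n)` for all but finitely many `n`. -/
def Dominating (D : M) : Prop :=
  ∃ w, IsOmega E w ∧ (∀ f, E f D → IsFun E f w w) ∧
    ∀ g, IsFun E g w w → ∃ f, E f D ∧ ∃ m, E m w ∧
      ∀ n, E n w → ¬ E n m → ∀ a b, App E g n a → App E f n b → (E a b ∨ a = b)

/-- `(T, R)` is a tree: `R` is a set of ordered pairs of elements of `T` which is irreflexive and transitive, and
for each `t` in `T` every nonempty set of strict predecessors of `t` has a least element. -/
def IsTree (T R : M) : Prop :=
  (∀ p, E p R → ∃ s t, E s T ∧ E t T ∧ IsPair E s t p) ∧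
  (∀ s, ¬ App E R s s) ∧
  (∀ r s t, App E R r s → App E R s t → App E R r t) ∧
  ∀ t x, E t T → (∃ s, E s x) → (∀ s, E s x → App E R s t) →
    ∃ s, E s x ∧ ∀ r, E r x → (r = s ∨ App E R s r)

/-- Every node has only countably many strict predecessors. -/
def CtblPred (T R : M) : Prop :=
  ∀ t, E t T → ∃ p, (∀ s, E s p ↔ App E R s t) ∧ IsCtbl E p

/-- `c` is a chain of the tree `(T, R)`. -/
def ChainIn (T R c : M) : Prop :=
  (∀ s, E s c → E s T) ∧ ∀ r s, E r c → E s c → (r = s ∨ App E R r s ∨ App E R s r)

/-- `(T, R)` is special: there is a function from `T` to `ω` which is injective on every chain. -/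
def IsSpecial (T R : M) : Prop :=
  ∃ w f, IsOmega E w ∧ IsFun E f T w ∧ ∀ s t k, App E R s t → App E f s k → ¬ App E f t k

/-- The dominating number is smaller than the special tree number: there is a dominating set `D` such that every tree
`(T, R)` in which every node has only countably many predecessors (in particular, every tree of
height `ω_1`), in which every chain is countable, and whose set of nodes has an injective function to `D`, is special. -/
def StGtD : Prop :=
  ∃ D, Dominating E D ∧ ∀ T R, IsTree E T R → CtblPred E T R →
    (∀ c, ChainIn E T R c → IsCtbl E c) → (∃ j, IsInj E j T D) → IsSpecial E T R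

end Pool.Agent.Lib.STD
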