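import Pool.Agent.Lib.STD.Alg
import Pool.Agent.Lib.STD.Notions

/-!
# Module STD.Names: ground functions, Boolean values of the notions of STD.Notions

`gN B g` is the name of the ground function `g : ℕ → ℕ`, `gD B` the name of the set of all ground functions.

PROOFS.
* app_gN: app_fnN, the weight is `⊤` or `⊥` (Ultra.top, Ultra.bot). isFun_gN: isFun_fnN (BVU/Facts), both values
  are `⊤`. gN_inj: if `g n ≠ g' n`, then App (gN g) n (g n) and, by the equality, App (gN g') n (g n).
* of_mem_gD: `of_mem` with `X = gD B` (type, func, val by rfl). E_gD: `Ultra.mono Ultra.top (le_bmem_mk ..)`.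
* BV lemmas: combine BV.all, BV.ex, BV.and, BV.or, BV.imp, BV.not, BV.biimp, BV.mem, BV.eq, BV.app, BV.isFun, BV.isPair
  (see BVU/Facts.lean, BVU/Quot.lean and for the style WkD/MCheck.lean: sometimes `(P := fun U x => ..)` is needed).
* exists_name: exists_max applied to `fun y => bv (fun U => P U (q U y))`, see `hmax` in the proof of
  `exists_coll` in BVU/Quot.lean.
* isCtbl_iff: eq_omega and isOmega_omega.
* of_natCover: `f` a function to `ω` in the model: the value of `t` is a numeral, case analysis with of_mem_omega.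
-/

set_option autoImplicit false

namespace Pool.Agent.Lib.STD

open Set Pool.Agent.Lib.BVU Pool.Agent.Lib.BVU.bSet
open Pool.Agent.Lib.BVM (Fml Sat ModelZFC IsEmp IsSucc IsInductive IsOmega IsUPair IsPair App IsFunOn IsFun IsSurj)

universe u

open Classical in
/-- name of the ground function `g` -/
noncomputable def gN (B : Type u) [CompleteBooleanAlgebra B] (g : ℕ → ℕ) : bSet B :=
  fnN (fun n m => if g n = m then ⊤ else ⊥)

/-- name of the set of all ground functions -/
noncomputable def gD (B : Type u) [CompleteBooleanAlgebra B] : bSet B :=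
  bSet.mk (ULift.{u} (ℕ → ℕ)) (fun g => gN B g.down) (fun _ => ⊤)

variable {B : Type u} [CompleteBooleanAlgebra B]

theorem app_gN {U : Ultra B} {g : ℕ → ℕ} {n m : ℕ} :
    App (E U) (q U (gN B g)) (q U (num n)) (q U (num m)) ↔ g n = m := by
  unfold gN
  rw [app_fnN]
  constructor
  · intro h
    by_contra hne
    rw [if_neg hne] at h
    exact Ultra.bot h
  · intro h
    rw [if_pos h]
    exact Ultra.top

theorem isFun_gN (g : ℕ → ℕ) (U : Ultra B) :
    IsFun (E U) (q U (gN B g)) (q U omega) (q U omega) := by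
  unfold gN
  refine isFun_fnN (Ultra.mono Ultra.top (le_iInf fun n => ?_))
    (Ultra.mono Ultra.top (le_iInf fun n => le_iInf fun m => le_iInf fun m' => le_iInf fun hne => ?_))
  · refine le_iSup_of_le (g n) ?_
    rw [if_pos rfl]
  · by_cases h : g n = m
    · have h' : ¬ g n = m' := fun h2 => hne (h.symm.trans h2)
      rw [if_neg h', inf_bot_eq, compl_bot]
    · rw [if_neg h, bot_inf_eq, compl_bot]

theorem gN_inj {U : Ultra B} {g g' : ℕ → ℕ} (h : q U (gN B g) = q U (gN B g')) : g = g' := by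
  funext n
  have h1 : App (E U) (q U (gN B g)) (q U (num n)) (q U (num (g n))) := app_gN.2 rfl
  rw [h] at h1
  exact (app_gN.1 h1).symm

theorem E_gD (g : ℕ → ℕ) (U : Ultra B) : E U (q U (gN B g)) (q U (gD B)) :=
  Ultra.mono Ultra.top
    (le_bmem_mk (fun g : ULift.{u} (ℕ → ℕ) => gN B g.down) (fun _ => ⊤) (ULift.up g))

theorem of_mem_gD {Z : bSet B} {P Q : Ultra B → Prop} (hP : BV P) (hQ : BV Q)
    (h : ∀ g U, q U Z = q U (gN B g) → Q U → P U) {U : Ultra B}
    (h1 : E U (q U Z) (q U (gD B))) (h2 : Q U) : P U :=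
  of_mem (X := gD B) hP hQ (fun g U _ hZ hq => h (ULift.down g) U hZ hq) h1 h2

theorem BV_isOmega (w : bSet B) : BV (fun U => IsOmega (E U) (q U w)) :=
  (BV.isInductive w).and (BV.all fun x => (BV.isInductive x).imp
    (BV.all fun _ => (BV.mem _ _).imp (BV.mem _ _)))

theorem BV_isInj (f a b : bSet B) : BV (fun U => IsInj (E U) (q U f) (q U a) (q U b)) :=
  (BV.isFun f a b).and (BV.all fun x => BV.all fun y => BV.all fun z =>
    (BV.app f x z).imp ((BV.app f y z).imp (BV.eq x y)))

theorem BV_isCtbl (a : bSet B) : BV (fun U => IsCtbl (E U) (q U a)) :=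
  BV.ex fun w => BV.ex fun f => (BV_isOmega w).and (BV_isInj f a w)

theorem BV_isTree (T R : bSet B) : BV (fun U => IsTree (E U) (q U T) (q U R)) :=
  (BV.all fun p => (BV.mem p R).imp (BV.ex fun s => BV.ex fun t =>
    (BV.mem s T).and ((BV.mem t T).and (BV.isPair s t p)))).and
  ((BV.all fun s => (BV.app R s s).not).and
  ((BV.all fun r => BV.all fun s => BV.all fun t =>
    (BV.app R r s).imp ((BV.app R s t).imp (BV.app R r t))).and
  (BV.all fun t => BV.all fun x => (BV.mem t T).imp ((BV.ex fun s => BV.mem s x).imp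
    ((BV.all fun s => (BV.mem s x).imp (BV.app R s t)).imp
      (BV.ex fun s => (BV.mem s x).and (BV.all fun r => (BV.mem r x).imp
        ((BV.eq r s).or (BV.app R s r)))))))))

theorem BV_ctblPred (T R : bSet B) : BV (fun U => CtblPred (E U) (q U T) (q U R)) :=
  BV.all fun t => (BV.mem t T).imp (BV.ex fun p =>
    (BV.all fun s => (BV.mem s p).biimp (BV.app R s t)).and (BV_isCtbl p))

theorem BV_chainIn (T R c : bSet B) : BV (fun U => ChainIn (E U) (q U T) (q U R) (q U c)) :=
  (BV.all fun s => (BV.mem s c).imp (BV.mem s T)).and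
  (BV.all fun r => BV.all fun s => (BV.mem r c).imp ((BV.mem s c).imp
    ((BV.eq r s).or ((BV.app R r s).or (BV.app R s r)))))

theorem BV_chainsCtbl (T R : bSet B) :
    BV (fun U => ∀ c, ChainIn (E U) (q U T) (q U R) c → IsCtbl (E U) c) :=
  BV.all (P := fun U c => ChainIn (E U) (q U T) (q U R) c → IsCtbl (E U) c) fun c =>
    (BV_chainIn T R c).imp (BV_isCtbl c)

/-- Maximum principle for a Boolean valued predicate. -/
theorem exists_name {P : ∀ U : Ultra B, Mod U → Prop} (h : ∀ x, BV (fun U => P U (q U x))) :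
    ∃ y : bSet B, ∀ U, (∃ m, P U m) → P U (q U y) := by
  obtain ⟨y, hy⟩ := exists_max (fun y => bv (fun U => P U (q U y)))
    (fun x y => Ultra.le_of_forall fun U hU => by
      obtain ⟨h1, h2⟩ := Ultra.inf_iff.1 hU
      rw [← (h y).iff U, ← q_eq.2 h1]
      exact ((h x).iff U).2 h2)
  refine ⟨y, fun U hex => ?_⟩
  rw [los_ex (P := P) (fun x U => (h x).iff U)] at hex
  exact ((h y).iff U).2 (Ultra.mono hex hy)

theorem isCtbl_iff {U : Ultra B} {a : Mod U} :
    IsCtbl (E U) a ↔ ∃ f, IsInj (E U) f a (q U omega) := by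
  constructor
  · rintro ⟨w, f, hw, hf⟩
    rw [eq_omega hw] at hf
    exact ⟨f, hf⟩
  · rintro ⟨f, hf⟩
    exact ⟨_, f, isOmega_omega U, hf⟩

/-- Case analysis on the value of a function into the natural numbers. -/
theorem iSup_app_mem {U : Ultra B} {f a t : bSet B}
    (hf : IsFun (E U) (q U f) (q U a) (q U omega)) (ht : E U (q U t) (q U a)) :
    (⨆ n : ℕ, bv (fun U => App (E U) (q U f) (q U t) (q U (num n)))) ∈ U := by
  obtain ⟨y, hy, _⟩ := hf.1.2 _ ht
  have hyo : E U y (q U omega) := hf.2 _ _ hy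
  obtain ⟨Y, rfl⟩ := q_surj y
  refine of_mem_omega (Z := Y)
    (P := fun U => (⨆ n : ℕ, bv (fun U => App (E U) (q U f) (q U t) (q U (num n)))) ∈ U)
    (Q := fun U => App (E U) (q U f) (q U t) (q U Y)) (BV.of_mem _) (BV.app f t Y)
    (fun n U hn hQ => ?_) hyo hy
  rw [hn] at hQ
  exact Ultra.mono (((BV.app f t (num n)).iff U).1 hQ)
    (le_iSup (fun n : ℕ => bv (fun U => App (E U) (q U f) (q U t) (q U (num n)))) n)

end Pool.Agent.Lib.STD
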