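import Pool.Agent.Lib.STD.PK

/-!
# Module STD.ColC: the collapse of the reals to `ω₁`

PROOFS.
* colC_closed: the union of the functions: `f w = (p n).1 w` for some `n` with `(p n).1 w ≠ none`, if there is one (independent of `n` as the sequence
  decreases: `m ≤ n` and `(p m).1 w = some r` imply `(p n).1 w = some r`).
* colC_ext: the domain is countable, `W` is not (not_countable_W), take `w` outside the domain, Function.update.
* colB_name: disj: if `em p ≤ colB w r ⊓ colB w r'` then by exists_em_iSup (sSup_image') twice there is `q ≤ p` with `em q ≤ em x`, `em q ≤ em y`, `x.c w = some r`,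
  `y.c w = some r'`; compat_of gives a common extension `z` of `q`, `x` and then of `y`: `z.c w = some r` and `= some r'`. Use exists_em for a nonzero element.
  sup: for every `p : S.Cnd univ` there is `q ≤ p` and `w` with `q.c w = some r` (eq_top_of_em): by colC_ext `c' ≤ p.1.c` with `c'.1 w = some r`; take
  `r₀ = ⟨c', fun _ => 0⟩ : Raw ColC`, `S.In (Iio 0) r₀` (support empty, S.ζ_pos, It.okc_zero), `S.LE r₀ (p.1.rs 0)` (all codes are `0`: It.lec_refl, It.okc_zero) and
  `q = r₀.am p.1 0` (It.am_In, It.am_le), `q.c = c'` (Raw.am_c).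
-/

set_option autoImplicit false

namespace Pool.Agent.Lib.STD

open Set Pool.Agent.Lib.BSI Pool.Agent.Lib.BVU Pool.Agent.Lib.BSM

/-- countable partial functions from `W` to the set of the reals -/
def ColC : Type := {f : W → Option (ℕ → ℕ) // {w | f w ≠ none}.Countable}

instance : Preorder ColC where
  le q p := ∀ w r, p.1 w = some r → q.1 w = some r
  le_refl p := fun _ _ h => h
  le_trans r q p h h' := fun w x hx => h w x (h' w x hx)

theorem colC_le {p q : ColC} : q ≤ p ↔ ∀ w r, p.1 w = some r → q.1 w = some r := Iff.rfl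

open Classical in
theorem colC_closed : SigmaClosed ColC := by
  intro c hc
  have hanti : ∀ {m n : ℕ}, m ≤ n → c n ≤ c m := fun {m n} h => by
    induction n, h using Nat.le_induction with
    | base => exact le_rfl
    | succ k _ ih => exact (hc k).trans ih
  let f : W → Option (ℕ → ℕ) := fun w =>
    if h : ∃ n, (c n).1 w ≠ none then (c h.choose).1 w else none
  have hf : {w | f w ≠ none} ⊆ ⋃ n, {w | (c n).1 w ≠ none} := by
    intro w hw
    by_cases h : ∃ n, (c n).1 w ≠ none
    · obtain ⟨n, hn⟩ := h
      exact mem_iUnion.2 ⟨n, hn⟩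
    · exact absurd (dif_neg h : f w = none) hw
  refine ⟨⟨f, (countable_iUnion fun n => (c n).2).mono hf⟩, fun n w r hr => ?_⟩
  have h : ∃ n, (c n).1 w ≠ none := ⟨n, by rw [hr]; exact Option.some_ne_none r⟩
  show f w = some r
  have e : f w = (c h.choose).1 w := dif_pos h
  rw [e]
  obtain ⟨r', hr'⟩ := Option.ne_none_iff_exists'.1 h.choose_spec
  have h1 := hanti (le_max_left n h.choose) w r hr
  have h2 := hanti (le_max_right n h.choose) w r' hr'
  rw [h1] at h2
  rw [hr', h2]

theorem colC_nonempty : Nonempty ColC := ⟨⟨fun _ => none, by simp⟩⟩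

open Classical in
theorem colC_ext (p : ColC) (r : ℕ → ℕ) : ∃ q ≤ p, ∃ w, q.1 w = some r := by
  obtain ⟨w, hw⟩ : ∃ w, p.1 w = none := by
    by_contra hcon
    push Not at hcon
    refine not_countable_W (p.2.mono fun w _ => hcon w)
  refine ⟨⟨Function.update p.1 w (some r), ?_⟩, fun w' r' h => ?_, w, ?_⟩
  · refine (p.2.insert w).mono fun v hv => ?_
    by_cases h : v = w
    · exact Or.inl h
    · refine Or.inr ?_
      have h1 : Function.update p.1 w (some r) v ≠ none := hv
      rwa [Function.update_of_ne h] at h1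
  · show Function.update p.1 w (some r) w' = some r'
    have hne : w' ≠ w := by
      rintro rfl
      rw [hw] at h
      exact absurd h (by simp)
    rw [Function.update_of_ne hne]
    exact h
  · show Function.update p.1 w (some r) w = some r
    exact Function.update_self _ _ _

variable {Rel : ∀ (B : Type) [CompleteBooleanAlgebra B], RelF B}

/-- names of the reals enumerated by the collapse -/
noncomputable def colB (S : It ColC Rel) (w : W) (r : ℕ → ℕ) : BK S :=
  sSup (BVU.em '' {p : S.Cnd univ | p.1.c.1 w = some r})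

theorem colB_name (S : It ColC Rel) : ColName (colB S) := by
  constructor
  · intro w r r' hne
    by_contra hcon
    obtain ⟨p, hp⟩ := exists_em hcon
    have hp1 : BVU.em p ≤ colB S w r := hp.trans inf_le_left
    have hp2 : BVU.em p ≤ colB S w r' := hp.trans inf_le_right
    unfold colB at hp1 hp2
    rw [sSup_image'] at hp1 hp2
    obtain ⟨q, hq, ⟨x, hx⟩, hqx⟩ := exists_em_iSup hp1
    obtain ⟨q', hq', ⟨y, hy⟩, hqy⟩ := exists_em_iSup ((em_mono hq).trans hp2)
    have h1 : BVU.em q' ⊓ BVU.em x ≠ ⊥ := by
      rw [inf_eq_left.2 ((em_mono hq').trans hqx)]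
      exact em_ne_bot _
    obtain ⟨z, hz1, hz2⟩ := compat_of h1
    have h2 : BVU.em z ⊓ BVU.em y ≠ ⊥ := by
      rw [inf_eq_left.2 ((em_mono hz1).trans hqy)]
      exact em_ne_bot _
    obtain ⟨z', hz3, hz4⟩ := compat_of h2
    have e1 : z'.1.c.1 w = some r := (hz3.trans hz2).1 w r hx
    have e2 : z'.1.c.1 w = some r' := hz4.1 w r' hy
    rw [e1] at e2
    exact hne (Option.some.inj e2)
  · intro r
    refine eq_top_of_em fun p => ?_
    obtain ⟨c', hc', w, hw⟩ := colC_ext p.1.c r
    let r0 : Raw ColC := ⟨c', fun _ => 0⟩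
    have hsupp : r0.supp = ∅ := by
      ext β
      simp [Raw.supp, r0]
    have hIn : S.In (Iio 0) r0 := by
      refine ⟨by rw [hsupp]; exact empty_subset _, by rw [hsupp]; exact countable_empty,
        fun β => S.ζ_pos β, fun β => It.okc_zero S β _⟩
    have hLE : S.LE r0 (p.1.rs 0) := by
      refine ⟨hc', fun β => ?_⟩
      have e : (p.1.rs 0).f β = 0 := Raw.rs_f_ge _ zero_le
      rw [e]
      exact It.lec_refl (It.okc_zero S β _)
    refine ⟨⟨r0.am p.1 0, It.am_In p.2 hIn (subset_univ _) hLE⟩, It.am_le p.2 hIn hLE, ?_⟩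
    refine le_trans ?_ (le_iSup (fun w => colB S w r) w)
    unfold colB
    exact le_sSup ⟨_, hw, rfl⟩

end Pool.Agent.Lib.STD
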