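import Pool.Agent.Lib.BVU.Facts

/-!
# The hypotheses on the complete Boolean algebra
-/

set_option autoImplicit false

namespace Pool.Agent.Lib.STD

open Set

universe u

/-- Weak distributivity: below every nonzero element there is a nonzero `q` below which each of the given countably many
covers has a finite subcover. -/
def WDist (B : Type u) [CompleteBooleanAlgebra B] : Prop :=
  ∀ (ι : Type u) (x : ℕ → ι → B) (p : B), p ≠ ⊥ → (∀ n, p ≤ ⨆ i, x n i) →
    ∃ q, q ≤ p ∧ q ≠ ⊥ ∧ ∀ n, ∃ F : Finset ι, q ≤ ⨆ i ∈ F, x n i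

/-- `W` is a well-order in which countable sets are bounded. -/
structure CtblBdd (W : Type) [LinearOrder W] : Prop where
  bdd : ∀ S : Set W, S.Countable → ∃ v, ∀ s ∈ S, s < v

/-- The names `c w` of the ground reals enumerated by `W`. -/
structure ColName {B : Type u} [CompleteBooleanAlgebra B] {W : Type} (c : W → (ℕ → ℕ) → B) :
    Prop where
  disj : ∀ w r r', r ≠ r' → c w r ⊓ c w r' = ⊥
  sup : ∀ r, ⨆ w, c w r = ⊤

/-- `R` is a Boolean valued tree order on `W` with bounded sets of predecessors. -/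
structure BTree {B : Type u} [CompleteBooleanAlgebra B] {W : Type} [LinearOrder W]
    (R : W → W → B) : Prop where
  irrefl : ∀ s, R s s = ⊥
  trans : ∀ r s t, R r s ⊓ R s t ≤ R r t
  comp : ∀ r s t, r ≠ s → R r t ⊓ R s t ≤ R r s ⊔ R s r
  bdd : ∀ t, (⨆ v, ⨅ s, ⨅ _ : v < s, (R s t)ᶜ) = ⊤

/-- There is no unbounded Boolean valued chain. -/
def NoChain {B : Type u} [CompleteBooleanAlgebra B] {W : Type} [LinearOrder W]
    (R : W → W → B) : Prop :=
  ∀ c : W → B, (∀ s t, s ≠ t → c s ⊓ c t ≤ R s t ⊔ R t s) → (⨅ v, ⨆ w, ⨆ _ : v < w, c w) = ⊥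

/-- `F` is a Boolean valued function from `W` to the natural numbers which is injective on chains. -/
structure BSpec {B : Type u} [CompleteBooleanAlgebra B] {W : Type}
    (R : W → W → B) (F : W → ℕ → B) : Prop where
  sup : ∀ s, ⨆ k, F s k = ⊤
  disj : ∀ s k l, k ≠ l → F s k ⊓ F s l = ⊥
  inj : ∀ s t k, F s k ⊓ F t k ⊓ R s t = ⊥

/-- Every Boolean valued tree on `W` without unbounded chains is special. -/
def AllSpecial (B : Type u) [CompleteBooleanAlgebra B] (W : Type) [LinearOrder W] : Prop :=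
  ∀ R : W → W → B, BTree R → NoChain R → ∃ F : W → ℕ → B, BSpec R F

end Pool.Agent.Lib.STD
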