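import Pool.Agent.Lib.STD.Names

/-!
# Module STD.Coding: a set with an injective function to the set of ground functions is enumerated by `W`

PROOF of exists_col: `c' w r = c w r ⊓ (⨆ v, ⨆ _ : v < w, c v r)ᶜ` (disjointness in `w`: for `v < w` `c' v r ≤ c v r`; the
suprema agree by well-founded induction on `w`: `c w r ≤ ⨆ v, c' v r`, compare `disjointify'` in
BVU/Basic.lean).

PROOF of exists_coding. Take `c'`. Names `ρ w` with `c' w r ≤ beq (ρ w) (gN B r)` for all `r` (exists_mix with the index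
type `ULift (ℕ → ℕ)`, disjointness by `disj`), so `c' w r ∈ U` implies `q U (ρ w) = q U (gN B r)`. Let `P w U t` say
`(⨆ r, c' w r) ∈ U ∧ App (E U) (q U j) t (q U (ρ w))`; `τ w` from exists_name, and `a w = b ⊓ bv (fun U => P w U (q U (τ w)))`.
* mem: App j t y implies t in T (IsFunOn: an element of j is a pair with first coordinate in the domain, pair_inj).
* ne: if `τ w = τ w'` in the model, then `ρ w = ρ w'` (app_unique); case analysis with of_iSup over
  `(⨆ r, c' w r) ∈ U` and `(⨆ r, c' w' r) ∈ U` (P = False, Q = the equality `q U (ρ w) = q U (ρ w')` and the rest):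
  `ρ w = gN r`, `ρ w' = gN r'`, so `r = r'` by gN_inj, and `c' w r ⊓ c' w' r = ⊥`.
* cov: let `j` be a function from T to gD: there is `G` with App j Z G and E G gD (q_surj to get a name of G). Case analysis with
  of_mem_gD (Q := everything needed): `G = gN r`; then of_iSup over `⨆ w, c' w r = ⊤`: `c' w r ∈ U`, so `ρ w = gN r`,
  hence P w U Z, hence P w U (τ w) (`a w ∈ U`), and `Z = τ w` by the injectivity of j (App j Z (ρ w),
  App j (τ w) (ρ w)). Now the hypothesis `h`.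
-/

set_option autoImplicit false

namespace Pool.Agent.Lib.STD

open Set Pool.Agent.Lib.BVU Pool.Agent.Lib.BVU.bSet
open Pool.Agent.Lib.BVM (Fml Sat ModelZFC IsEmp IsSucc IsInductive IsOmega IsUPair IsPair App IsFunOn IsFun IsSurj)

universe u

variable {B : Type u} [CompleteBooleanAlgebra B] {W : Type} [LinearOrder W]

/-- Below `b` the elements of `T` are the `τ w` for the `w` with `a w`, without repetitions. -/
structure Coding (T : bSet B) (b : B) (τ : W → bSet B) (a : W → B) : Prop where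
  le : ∀ w, a w ≤ b
  mem : ∀ w (U : Ultra B), a w ∈ U → E U (q U (τ w)) (q U T)
  ne : ∀ w w' (U : Ultra B), w ≠ w' → a w ∈ U → a w' ∈ U → q U (τ w) ≠ q U (τ w')
  cov : ∀ (Z : bSet B) (P Q : Ultra B → Prop), BV P → BV Q →
    (∀ w U, a w ∈ U → q U Z = q U (τ w) → Q U → P U) →
    ∀ U : Ultra B, b ∈ U → E U (q U Z) (q U T) → Q U → P U

theorem exists_col [WellFoundedLT W] {c : W → (ℕ → ℕ) → B} (hc : ColName c) :
    ∃ c' : W → (ℕ → ℕ) → B, (∀ w r r', r ≠ r' → c' w r ⊓ c' w r' = ⊥) ∧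
      (∀ w w' r, w ≠ w' → c' w r ⊓ c' w' r = ⊥) ∧ ∀ r, ⨆ w, c' w r = ⊤ := by
  have hdis : ∀ w w' r, w < w' → (c w r ⊓ (⨆ v, ⨆ _ : v < w, c v r)ᶜ) ⊓
      (c w' r ⊓ (⨆ v, ⨆ _ : v < w', c v r)ᶜ) = ⊥ := by
    intro w w' r h
    rw [← le_bot_iff, ← inf_compl_self (⨆ v, ⨆ _ : v < w', c v r)]
    exact inf_le_inf (inf_le_left.trans (le_iSup₂_of_le w h le_rfl)) inf_le_right
  refine ⟨fun w r => c w r ⊓ (⨆ v, ⨆ _ : v < w, c v r)ᶜ, fun w r r' h => ?_, fun w w' r h => ?_,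
    fun r => ?_⟩
  · rw [← le_bot_iff, ← hc.disj w r r' h]
    exact inf_le_inf inf_le_left inf_le_left
  · rcases lt_or_gt_of_ne h with h1 | h1
    · exact hdis w w' r h1
    · rw [inf_comm]
      exact hdis w' w r h1
  · rw [eq_top_iff, ← hc.sup r]
    refine iSup_le fun w => ?_
    induction w using WellFoundedLT.induction with
    | ind w ih =>
      have h1 : c w r ≤ (c w r ⊓ (⨆ v, ⨆ _ : v < w, c v r)ᶜ) ⊔ ⨆ v, ⨆ _ : v < w, c v r := by
        rw [sup_inf_right, sup_comm _ᶜ, sup_compl_eq_top, inf_top_eq]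
        exact le_sup_left
      refine h1.trans (sup_le ?_ (iSup₂_le fun v hv => ih v hv))
      exact le_iSup (fun w => c w r ⊓ (⨆ v, ⨆ _ : v < w, c v r)ᶜ) w

theorem exists_coding [WellFoundedLT W] {c : W → (ℕ → ℕ) → B} (hc : ColName c) (T j : bSet B) (b : B)
    (hj : ∀ U : Ultra B, b ∈ U → IsInj (E U) (q U j) (q U T) (q U (gD B))) :
    ∃ (τ : W → bSet B) (a : W → B), Coding T b τ a := by
  obtain ⟨c', hd1, hd2, hs⟩ := exists_col hc
  have hρ : ∀ w, ∃ y : bSet B, ∀ r, c' w r ≤ beq y (gN B r) := by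
    intro w
    obtain ⟨y, hy⟩ := exists_mix (fun i : ULift.{u} (ℕ → ℕ) => gN B i.down)
      (fun i => c' w i.down) (fun i i' h => hd1 w _ _ (fun h1 => h (ULift.ext _ _ h1)))
    exact ⟨y, fun r => hy (ULift.up r)⟩
  choose ρ hρ using hρ
  have hρq : ∀ w r (U : Ultra B), c' w r ∈ U → q U (ρ w) = q U (gN B r) :=
    fun w r U h => q_eq.2 (Ultra.mono h (hρ w r))
  have hBV : ∀ w x, BV (fun U : Ultra B => (⨆ r, c' w r) ∈ U ∧
      App (E U) (q U j) (q U x) (q U (ρ w))) :=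
    fun w x => (BV.of_mem _).and (BV.app j x (ρ w))
  choose τ hτ using fun w => exists_name
    (P := fun (U : Ultra B) (t : Mod U) => (⨆ r, c' w r) ∈ U ∧ App (E U) (q U j) t (q U (ρ w)))
    (hBV w)
  have ha : ∀ w (U : Ultra B), b ⊓ bv (fun U : Ultra B => (⨆ r, c' w r) ∈ U ∧
      App (E U) (q U j) (q U (τ w)) (q U (ρ w))) ∈ U ↔ b ∈ U ∧ (⨆ r, c' w r) ∈ U ∧
        App (E U) (q U j) (q U (τ w)) (q U (ρ w)) := by
    intro w U
    rw [Ultra.inf_iff, ← (hBV w (τ w)).iff U]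
  refine ⟨τ, fun w => b ⊓ bv (fun U : Ultra B => (⨆ r, c' w r) ∈ U ∧
      App (E U) (q U j) (q U (τ w)) (q U (ρ w))), ⟨fun w => inf_le_left, fun w U hU => ?_,
      fun w w' U hne hU hU' heq => ?_, ?_⟩⟩
  · obtain ⟨hb, -, p, hp, hpj⟩ := (ha w U).1 hU
    obtain ⟨x, y, hx, hxy⟩ := (hj U hb).1.1.1 p hpj
    rw [(pair_inj hp hxy).1]
    exact hx
  · obtain ⟨hb, h1, h2⟩ := (ha w U).1 hU
    obtain ⟨-, h3, h4⟩ := (ha w' U).1 hU'
    have hT : E U (q U (τ w)) (q U T) := by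
      obtain ⟨p, hp, hpj⟩ := h2
      obtain ⟨x, y, hx, hxy⟩ := (hj U hb).1.1.1 p hpj
      rw [(pair_inj hp hxy).1]
      exact hx
    have h5 : q U (ρ w) = q U (ρ w') := by
      rw [← heq] at h4
      exact app_unique (hj U hb).1.1 hT h2 h4
    refine of_iSup (t := fun r => c' w r) (P := fun _ : Ultra B => False)
      (Q := fun U : Ultra B => (⨆ r, c' w' r) ∈ U ∧ q U (ρ w) = q U (ρ w')) (BV.const False)
      ((BV.of_mem _).and (BV.eq _ _)) (fun r U hr hQ => ?_) h1 ⟨h3, h5⟩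
    refine of_iSup (t := fun r => c' w' r) (P := fun _ : Ultra B => False)
      (Q := fun U : Ultra B => c' w r ∈ U ∧ q U (ρ w) = q U (ρ w')) (BV.const False)
      ((BV.of_mem _).and (BV.eq _ _)) (fun r' U hr' hQ' => ?_) hQ.1 ⟨hr, hQ.2⟩
    have h6 : q U (gN B r) = q U (gN B r') := by
      rw [← hρq w r U hQ'.1, ← hρq w' r' U hr']
      exact hQ'.2
    obtain rfl := gN_inj h6
    have h7 := Ultra.inf_iff.2 ⟨hQ'.1, hr'⟩
    rw [hd2 w w' r hne] at h7
    exact Ultra.bot h7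
  · intro Z P Q hP hQ h U hb hZT hQU
    obtain ⟨y, hy, -⟩ := (hj U hb).1.1.2 _ hZT
    have hyD : E U y (q U (gD B)) := (hj U hb).1.2 _ _ hy
    obtain ⟨G, rfl⟩ := q_surj y
    refine of_mem_gD (Z := G) (P := P)
      (Q := fun U : Ultra B => Q U ∧ b ∈ U ∧ App (E U) (q U j) (q U Z) (q U G)) hP
      (hQ.and ((BV.of_mem _).and (BV.app j Z G))) (fun g U hG hQ' => ?_) hyD ⟨hQU, hb, hy⟩
    refine of_iSup (t := fun w => c' w g) (P := P)
      (Q := fun U : Ultra B => Q U ∧ b ∈ U ∧ App (E U) (q U j) (q U Z) (q U G) ∧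
        q U G = q U (gN B g)) hP
      (hQ.and ((BV.of_mem _).and ((BV.app j Z G).and (BV.eq _ _)))) (fun w U hw hQ'' => ?_)
      (by rw [hs g]; exact Ultra.top) ⟨hQ'.1, hQ'.2.1, hQ'.2.2, hG⟩
    obtain ⟨hQU, hb, hApp, hG⟩ := hQ''
    have h1 : q U (ρ w) = q U G := (hρq w g U hw).trans hG.symm
    have h2 : (⨆ r, c' w r) ∈ U ∧ App (E U) (q U j) (q U Z) (q U (ρ w)) := by
      refine ⟨Ultra.mono hw (le_iSup (fun r => c' w r) g), ?_⟩
      rw [h1]
      exact hApp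
    have h3 := hτ w U ⟨q U Z, h2⟩
    exact h w U ((ha w U).2 ⟨hb, h3⟩) ((hj U hb).2 _ _ _ h2.2 h3.2) hQU

end Pool.Agent.Lib.STD
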