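import Pool.Agent.Lib.STD.Names

/-!
# Module STD.Comb: countable in the model implies bounded

PROOF of comb. `W` is nonempty (hW for the empty set). Apply `hB` (WDist) with the index type
`ULift (Option W)`, `y n (some s) = x n s`, `y n none = (⨆ s, x n s)ᶜ` (supremum `⊤`), `p = e`: `e' ≤ e`, `e' ≠ ⊥`,
finite `F n`, `e' ≤ ⨆ i ∈ F n, y n i`. The set `S` of all `s` with `some s ∈ F n` for some `n` is countable, let `v` be
a strict bound (hW). If `v < s`, then `s ∉ S`, so for each `n` `e' ⊓ x n s ≤ ⨆ i ∈ F n, (e' ⊓ (y n i ⊓ x n s)) = ⊥`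
(for `i = none` by the complement, for `i = some s'` with `s' ≠ s` by `hdis`, remember `e' ≤ e`), hence
`e' ⊓ X s ≤ ⨆ n, e' ⊓ x n s = ⊥`.

PROOF of bdd_of_inj. Apply `comb` with `x n s = X s ⊓ bv (fun U => App (E U) (q U f) (q U (τ s)) (q U (num n)))`. Cover: in every
`U` with `e ∈ U`, `X s ∈ U`: iSup_app_mem (in STD.Names) for the function `f` with domain `A`, so
`⨆ n, bv ..` is in `U`, hence `X s ⊓ ⨆ n, .. = ⨆ n, X s ⊓ ..` is in `U` (use `Ultra.le_of_forall`, inf_iSup_eq).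
Disjoint: if `e`, `x n s`, `x n s'` are in `U`, then App f (τ s) n and App f (τ s') n, so `τ s = τ s'` in the model by
injectivity, contradiction with `hne` (Ultra.le_of_forall, le_bot_iff, Ultra.bot).
-/

set_option autoImplicit false

namespace Pool.Agent.Lib.STD

open Set Pool.Agent.Lib.BVU Pool.Agent.Lib.BVU.bSet
open Pool.Agent.Lib.BVM (Fml Sat ModelZFC IsEmp IsSucc IsInductive IsOmega IsUPair IsPair App IsFunOn IsFun IsSurj)

universe u

variable {B : Type u} [CompleteBooleanAlgebra B] {W : Type} [LinearOrder W]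

theorem comb (hB : WDist B) (hW : CtblBdd W) {e : B} (he : e ≠ ⊥) (X : W → B) (x : ℕ → W → B)
    (hcov : ∀ s, e ⊓ X s ≤ ⨆ n, x n s)
    (hdis : ∀ n s s', s ≠ s' → e ⊓ (x n s ⊓ x n s') = ⊥) :
    ∃ e', e' ≤ e ∧ e' ≠ ⊥ ∧ ∃ v, ∀ s, v < s → e' ⊓ X s = ⊥ := by
  obtain ⟨e', h1, h2, h3⟩ := hB (ULift.{u} (Option W))
    (fun n i => i.down.elim (⨆ s, x n s)ᶜ (x n)) e he (by
      intro n
      refine le_trans le_top ?_
      rw [← sup_compl_eq_top (x := ⨆ s, x n s)]
      refine sup_le (iSup_le fun s => ?_) ?_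
      · exact le_iSup (fun i : ULift.{u} (Option W) => i.down.elim (⨆ s, x n s)ᶜ (x n)) ⟨some s⟩
      · exact le_iSup (fun i : ULift.{u} (Option W) => i.down.elim (⨆ s, x n s)ᶜ (x n)) ⟨none⟩)
  choose F hF using h3
  have hc : (⋃ n, {s : W | (ULift.up (some s) : ULift.{u} (Option W)) ∈ F n}).Countable := by
    refine Set.countable_iUnion fun n => Set.Finite.countable ?_
    refine Set.Finite.of_finite_image
      (f := fun s : W => (ULift.up (some s) : ULift.{u} (Option W)))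
      ((F n).finite_toSet.subset ?_) ?_
    · rintro _ ⟨s, hs, rfl⟩
      exact hs
    · intro s _ s' _ h
      simpa using h
  obtain ⟨v, hv⟩ := hW.bdd _ hc
  refine ⟨e', h1, h2, v, fun s hs => ?_⟩
  have hsn : ∀ n, (ULift.up (some s) : ULift.{u} (Option W)) ∉ F n := by
    intro n hn
    exact absurd (hv s (Set.mem_iUnion.2 ⟨n, hn⟩)) (not_lt.2 hs.le)
  have h4 : e' ⊓ X s ≤ ⨆ n, e' ⊓ x n s := by
    rw [← inf_iSup_eq]
    exact le_inf inf_le_left ((inf_le_inf_right _ h1).trans (hcov s))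
  refine le_bot_iff.1 (h4.trans (iSup_le fun n => ?_))
  have h5 : e' ⊓ x n s ≤ (⨆ i ∈ F n, (i.down.elim (⨆ s, x n s)ᶜ (x n))) ⊓ (e' ⊓ x n s) :=
    le_inf (inf_le_left.trans (hF n)) le_rfl
  refine h5.trans ?_
  rw [iSup_inf_eq]
  refine iSup_le fun i => ?_
  rw [iSup_inf_eq]
  refine iSup_le fun hi => ?_
  obtain ⟨i⟩ := i
  cases i with
  | none =>
    change (⨆ s, x n s)ᶜ ⊓ (e' ⊓ x n s) ≤ ⊥
    refine le_trans (inf_le_inf_left _ (inf_le_right.trans (le_iSup (x n) s))) ?_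
    rw [compl_inf_self]
  | some s' =>
    change x n s' ⊓ (e' ⊓ x n s) ≤ ⊥
    have hne : s' ≠ s := by
      rintro rfl
      exact hsn n hi
    rw [← hdis n s' s hne]
    refine le_inf ?_ (le_inf inf_le_left ?_)
    · exact inf_le_right.trans (inf_le_left.trans h1)
    · exact inf_le_right.trans inf_le_right

/-- If below `e` the set `{τ s : X s}` is mapped by the injective function `f` to the natural numbers, then it is bounded
below some nonzero `e' ≤ e`. -/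
theorem bdd_of_inj (hB : WDist B) (hW : CtblBdd W) {e : B} (he : e ≠ ⊥) (X : W → B) (τ : W → bSet B)
    (f A : bSet B) (hf : ∀ U : Ultra B, e ∈ U → IsInj (E U) (q U f) (q U A) (q U omega))
    (hmem : ∀ s (U : Ultra B), e ∈ U → X s ∈ U → E U (q U (τ s)) (q U A))
    (hne : ∀ s s' (U : Ultra B), s ≠ s' → e ∈ U → X s ∈ U → X s' ∈ U → q U (τ s) ≠ q U (τ s')) :
    ∃ e', e' ≤ e ∧ e' ≠ ⊥ ∧ ∃ v, ∀ s, v < s → e' ⊓ X s = ⊥ := by
  refine comb hB hW he X
    (fun n s => X s ⊓ bv (fun U => App (E U) (q U f) (q U (τ s)) (q U (num n)))) ?_ ?_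
  · intro s
    refine Ultra.le_of_forall fun U hU => ?_
    obtain ⟨h1, h2⟩ := Ultra.inf_iff.1 hU
    have h3 := iSup_app_mem (hf U h1).1 (hmem s U h1 h2)
    rw [← inf_iSup_eq]
    exact Ultra.inf_iff.2 ⟨h2, h3⟩
  · intro n s s' hss
    refine le_bot_iff.1 (Ultra.le_of_forall fun U hU => ?_)
    obtain ⟨h1, h2⟩ := Ultra.inf_iff.1 hU
    obtain ⟨h3, h4⟩ := Ultra.inf_iff.1 h2
    obtain ⟨h5, h6⟩ := Ultra.inf_iff.1 h3
    obtain ⟨h7, h8⟩ := Ultra.inf_iff.1 h4
    have h9 := ((BV.app f (τ s) (num n)).iff U).2 h6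
    have h10 := ((BV.app f (τ s') (num n)).iff U).2 h8
    exact absurd ((hf U h1).2 _ _ _ h9 h10) (hne s s' U hss h1 h5 h7)

end Pool.Agent.Lib.STD
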