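import Pool.Agent.Lib.STD.Alg
import Pool.Agent.Lib.BVU.Alg
import Pool.Agent.Lib.BSM.Nice

/-!
# Module STD.Emb: complete embeddings; NOCH goes down

PROOFS. `CEmb F`: complement, arbitrary suprema, nonzero elements.
* bot: sSup of the empty set. top: complement of bot. iSup: iSup = sSup of the range, image of a range. sup: iSup over Bool or
  sSup of a pair. inf, iInf, sInf: complements (de Morgan). mono: sup. le_iff: if `F a ≤ F b` then `F (a ⊓ bᶜ) = ⊥`, so `a ⊓ bᶜ = ⊥`
  by `ne`. inj: le_iff, le_antisymm.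
* noch_down: let `c` be a chain for `lt` and `b ≠ ⊥`. `F ∘ c` is a chain for `F (lt s t)`; apply `h` to `F b`: `b' ≤ F b`, `b' ≠ ⊥`, `C`.
  Let `u = sInf {e : B | b' ≤ F e}`: `b' ≤ F u` (by sInf), so `u ≠ ⊥`, `u ≤ b`; for `s ∉ C` `F (c s) ⊓ b' = ⊥`, so `b' ≤ F (c s)ᶜ`
  and `u ≤ (c s)ᶜ`, `c s ⊓ u = ⊥`.
* exists_ntree: `choose` preimages `g s t` of `lt s t`; each axiom goes back by le_iff / inj (`zero`: F (g s t) = ⊥ = F ⊥).
-/

set_option autoImplicit false

namespace Pool.Agent.Lib.STD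

open Set Pool.Agent.Lib.BSM

universe u v

/-- Complete embeddings of complete Boolean algebras. -/
structure CEmb {B : Type u} {C : Type v} [CompleteBooleanAlgebra B] [CompleteBooleanAlgebra C]
    (F : B → C) : Prop where
  compl : ∀ b, F bᶜ = (F b)ᶜ
  sSup : ∀ S : Set B, F (sSup S) = sSup (F '' S)
  ne : ∀ b, b ≠ ⊥ → F b ≠ ⊥

namespace CEmb

variable {B : Type u} {C : Type v} [CompleteBooleanAlgebra B] [CompleteBooleanAlgebra C]
  {F : B → C}

theorem iSup (hF : CEmb F) {ι : Sort*} (x : ι → B) : F (⨆ i, x i) = ⨆ i, F (x i) := by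
  rw [← sSup_range, hF.sSup, ← Set.range_comp, sSup_range]
  rfl

theorem bot (hF : CEmb F) : F ⊥ = ⊥ := by
  have h := hF.sSup ∅
  rw [sSup_empty, Set.image_empty, sSup_empty] at h
  exact h

theorem top (hF : CEmb F) : F ⊤ = ⊤ := by
  rw [← compl_bot, hF.compl, hF.bot, compl_bot]

theorem sup (hF : CEmb F) (a b : B) : F (a ⊔ b) = F a ⊔ F b := by
  have h := hF.sSup {a, b}
  rw [sSup_pair, Set.image_pair, sSup_pair] at h
  exact h

theorem inf (hF : CEmb F) (a b : B) : F (a ⊓ b) = F a ⊓ F b := by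
  apply compl_injective
  rw [← hF.compl, compl_inf, compl_inf, hF.sup, hF.compl, hF.compl]

theorem iInf (hF : CEmb F) {ι : Sort*} (x : ι → B) : F (⨅ i, x i) = ⨅ i, F (x i) := by
  apply compl_injective
  rw [← hF.compl, compl_iInf, compl_iInf, hF.iSup]
  simp only [hF.compl]

theorem mono (hF : CEmb F) {a b : B} (h : a ≤ b) : F a ≤ F b := by
  rw [← sup_eq_right] at h ⊢
  rw [← hF.sup, h]

theorem le_iff (hF : CEmb F) {a b : B} : F a ≤ F b ↔ a ≤ b := by
  refine ⟨fun h => ?_, hF.mono⟩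
  by_contra hab
  have h1 : a ⊓ bᶜ ≠ ⊥ := fun h' => hab (disjoint_compl_right_iff.1 (disjoint_iff.2 h'))
  apply hF.ne _ h1
  rw [hF.inf, hF.compl]
  exact disjoint_iff.1 (disjoint_compl_right_iff.2 h)

theorem inj (hF : CEmb F) {a b : B} (h : F a = F b) : a = b :=
  le_antisymm (hF.le_iff.1 h.le) (hF.le_iff.1 h.ge)

theorem noch_down (hF : CEmb F) {T : Type*} {lt : T → T → B} (h : NOCH fun s t => F (lt s t)) :
    NOCH lt := by
  intro c hc b hb
  obtain ⟨b', hb', hne, C, hC, hCs⟩ := h (fun s => F (c s)) (fun s t hst => by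
    rw [← hF.inf, ← hF.sup]
    exact hF.mono (hc s t hst)) (F b) (hF.ne b hb)
  refine ⟨sInf {e : B | b' ≤ F e}, sInf_le hb', ?_, C, hC, ?_⟩
  · intro h0
    have h1 : b' ≤ F (sInf {e : B | b' ≤ F e}) := by
      rw [sInf_eq_iInf', hF.iInf]
      exact le_iInf fun e => e.2
    rw [h0, hF.bot, le_bot_iff] at h1
    exact hne h1
  · intro s hs
    have h1 : b' ≤ F (c s)ᶜ := by
      rw [hF.compl, le_compl_iff_disjoint_left, disjoint_iff]
      exact hCs s hs
    have h2 : sInf {e : B | b' ≤ F e} ≤ (c s)ᶜ := sInf_le h1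
    rw [le_compl_iff_disjoint_left, disjoint_iff] at h2
    exact h2

end CEmb

/-- A nice tree all of whose values are in the range of a complete embedding is the image of a nice tree. -/
theorem exists_ntree {B : Type u} {C : Type v} [CompleteBooleanAlgebra B] [CompleteBooleanAlgebra C]
    {F : B → C} (hF : CEmb F) (N : NTree C) (h : ∀ s t, ∃ b, F b = N.lt s t) :
    ∃ N' : NTree B, ∀ s t, F (N'.lt s t) = N.lt s t := by
  choose g hg using h
  refine ⟨⟨g, ?_, ?_, ?_, ?_, ?_⟩, hg⟩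
  · intro s t hst
    apply hF.inj
    rw [hg, hF.bot, N.zero s t hst]
  · intro t
    apply hF.inj
    rw [hg, hF.bot, N.irrefl]
  · intro r s t
    rw [← hF.le_iff, hF.inf, hg, hg, hg]
    exact N.trans r s t
  · intro r s t hrs
    rw [← hF.le_iff, hF.inf, hF.sup, hg, hg, hg, hg]
    exact N.comp r s t hrs
  · apply hF.noch_down
    have : (fun s t => F (g s t)) = N.lt := by
      funext s t
      exact hg s t
    rw [this]
    exact N.noch

end Pool.Agent.Lib.STD
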