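import Pool.Agent.Lib.BSI.Pull
import Pool.Agent.Lib.BSI.WD
import Pool.Agent.Lib.BSI.Exist
import Pool.Agent.Lib.BSR.Rel
import Pool.Agent.Lib.STD.ColC
import Pool.Agent.Lib.STD.NiceB
import Pool.Agent.Lib.STD.ModelB

/-!
# Module STD.FinalB: a model of ZFC in which the special tree number is greater than the dominating number
-/

set_option autoImplicit false

namespace Pool.Agent.Lib.STD

open Set Pool.Agent.Lib.BSI Pool.Agent.Lib.BVU Pool.Agent.Lib.BSM

universe u

theorem wdist_of_bsi {B : Type u} [CompleteBooleanAlgebra B] (h : BSI.WDist B) : STD.WDist B := by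
  intro ι x p hp hx
  obtain ⟨q, hq, hq0, F, hF⟩ := h ι x p hp hx
  exact ⟨q, hq, hq0, fun n => ⟨F n, hF n⟩⟩

theorem ctblBdd_W : CtblBdd W where
  bdd S hS := exists_gt S hS

theorem allSpecial {C : Type} [Preorder C] {Rel : ∀ (B : Type) [CompleteBooleanAlgebra B], RelF B}
    {S : It C Rel} (hRel : ∀ (B : Type) [CompleteBooleanAlgebra B] (N : NTree B),
      ∃ nd : V → (Rel B).Nd, ∀ s t, (Rel B).lt (nd s) (nd t) = N.lt s t)
    (hWD : STD.WDist (BK S)) : AllSpecial (BK S) W := by
  intro R hR hN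
  obtain ⟨F, h1, h2, h3⟩ := It.special_nice (den_em (S.Cnd univ)) hRel (niceTree hWD hR hN)
  exact ⟨_, bspec_of_nice hR F h1 h2 h3⟩

/-- There is a model of ZFC in which the special tree number is greater than the dominating number. -/
theorem exists_stGtD : ∃ (M : Type 2) (E : M → M → Prop), BVM.ModelZFC M E ∧ StGtD E := by
  obtain ⟨S⟩ := exists_it ColC BSR.Rel
  obtain ⟨c⟩ := colC_nonempty
  have hWD : STD.WDist (BK S) := wdist_of_bsi (It.wdist_univ S colC_closed (den_em (S.Cnd univ)))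
  have hne : Nonempty (S.Cnd univ) := by
    refine ⟨⟨⟨c, fun _ => 0⟩, subset_univ _, ?_, fun β => S.ζ_pos β, fun β => It.okc_zero S β _⟩⟩
    have h : (Raw.supp (⟨c, fun _ => 0⟩ : Raw ColC)) = ∅ := by
      ext x
      simp [Raw.supp]
    rw [h]
    exact countable_empty
  have : Nontrivial (BK S) := by
    obtain ⟨p⟩ := hne
    exact ⟨⟨BVU.em p, ⊥, em_ne_bot p⟩⟩
  exact exists_model ctblBdd_W hWD (colB_name S)
    (allSpecial (fun B _ N => ⟨fun v => (N, v), fun s t => BSR.Rel_lt N s t⟩) hWD)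

end Pool.Agent.Lib.STD
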