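import Pool.Agent.Lib.STD.Alg
import Pool.Agent.Lib.BVU.Alg
import Pool.Agent.Lib.BSM.Nice

/-!
# Module STD.NiceA: the nice tree on `V = W × W` given by a Boolean valued tree on `W`

`bdV R t v` = Boolean value of: `v` is a strict upper bound of the predecessors of `t` and of `t`;
`nuV R t v` = Boolean value of: `v` is the least such bound. `niceLt R (v, s) (w, t) = R s t ⊓ (nuV R s v ⊓ nuV R t w)`.

PROOFS (`hR : BTree R`).
* nuV_disj: for `v < v'`: `nuV R t v ≤ bdV R t v ≤ ⨆ v'' < v', bdV R t v''` and `nuV R t v'` is below its complement.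
* nuV_sup: `⨆ v, nuV R t v = ⨆ v, bdV R t v` by well-founded induction (as in `disjointify'`, BVU/Basic.lean). `⨆ v, bdV R t v = ⊤`: by
  hR.bdd `⨆ v, ⨅ s > v, (R s t)ᶜ = ⊤`, and for every `v` there is `v'` with `v < v'`, `t < v'` (exists_gt for the set `{v, t}`), so
  `⨅ s > v, (R s t)ᶜ ≤ bdV R t v'` (if `v' ≤ s` then `v < s`).
* nuV_mono: if `¬ v ≤ w` then `R s t ⊓ (nuV R s v ⊓ nuV R t w) = ⊥`: `w < v`; the element is below `bdV R s w`: for `r ≥ w`: `R r s ⊓ R s t ≤ R r t`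
  (trans) and `nuV R t w ≤ (R r t)ᶜ`; and `s < w` (if `w ≤ s`, then `nuV R t w ≤ (R s t)ᶜ`, and the element is `⊥`). But `nuV R s v ≤ (bdV R s w)ᶜ`.
* niceLt_zero: `(v, s) ∉ pre (w, t)` means `¬ v ≤ w` (nuV_mono) or `w ≤ s` (`nuV R t w ≤ (R s t)ᶜ`).
* niceLt irrefl: hR.irrefl. trans: hR.trans, drop the middle factors. comp for `(u, r) ≠ (v, s)` below `(w, t)`: if `r ≠ s` hR.comp; if `r = s`, then
  `u ≠ v` and `nuV R r u ⊓ nuV R r v = ⊥`.
-/

set_option autoImplicit false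

namespace Pool.Agent.Lib.STD

open Set Pool.Agent.Lib.BSM

universe u

variable {B : Type u} [CompleteBooleanAlgebra B]

/-- value of: `v` is a strict upper bound of the predecessors of `t` and of `t` -/
noncomputable def bdV (R : W → W → B) (t v : W) : B :=
  (⨅ s, ⨅ _ : v ≤ s, (R s t)ᶜ) ⊓ BVU.tv B (t < v)

/-- value of: `v` is the least strict upper bound of the predecessors of `t` and of `t` -/
noncomputable def nuV (R : W → W → B) (t v : W) : B :=
  bdV R t v ⊓ (⨆ v', ⨆ _ : v' < v, bdV R t v')ᶜ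

/-- the nice tree order -/
noncomputable def niceLt (R : W → W → B) (s t : V) : B :=
  R s.2 t.2 ⊓ (nuV R s.2 s.1 ⊓ nuV R t.2 t.1)

private theorem bdV_le (R : W → W → B) {s t v : W} (h : v ≤ s) : bdV R t v ≤ (R s t)ᶜ :=
  inf_le_left.trans (iInf₂_le s h)

private theorem nuV_le_compl (R : W → W → B) {t v v' : W} (h : v' < v) :
    nuV R t v ≤ (bdV R t v')ᶜ :=
  inf_le_right.trans (compl_le_compl (le_iSup₂ (f := fun v' (_ : v' < v) => bdV R t v') v' h))

theorem nuV_disj (R : W → W → B) (t : W) {v v' : W} (h : v ≠ v') : nuV R t v ⊓ nuV R t v' = ⊥ := by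
  rw [eq_bot_iff]
  rcases lt_or_gt_of_ne h with h | h
  · calc nuV R t v ⊓ nuV R t v' ≤ bdV R t v ⊓ (bdV R t v)ᶜ :=
          inf_le_inf inf_le_left (nuV_le_compl R h)
      _ = ⊥ := inf_compl_eq_bot
      _ ≤ ⊥ := le_rfl
  · calc nuV R t v ⊓ nuV R t v' ≤ (bdV R t v')ᶜ ⊓ bdV R t v' :=
          inf_le_inf (nuV_le_compl R h) inf_le_left
      _ = ⊥ := compl_inf_eq_bot
      _ ≤ ⊥ := le_rfl

theorem nuV_sup {R : W → W → B} (hR : BTree R) (t : W) : ⨆ v, nuV R t v = ⊤ := by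
  have key : ∀ v, bdV R t v ≤ ⨆ v, nuV R t v := by
    intro v
    induction v using WellFoundedLT.induction with
    | ind v ih =>
      have e : bdV R t v = (bdV R t v ⊓ (⨆ v', ⨆ _ : v' < v, bdV R t v')) ⊔
          (bdV R t v ⊓ (⨆ v', ⨆ _ : v' < v, bdV R t v')ᶜ) := by
        rw [← inf_sup_left, sup_compl_eq_top, inf_top_eq]
      rw [e]
      apply sup_le
      · exact inf_le_right.trans (iSup₂_le ih)
      · exact le_iSup (nuV R t) v
  rw [eq_top_iff, ← hR.bdd t]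
  apply iSup_le
  intro v
  obtain ⟨v', hv'⟩ := exists_gt {v, t} (by simp)
  have h1 : v < v' := hv' v (by simp)
  have h2 : t < v' := hv' t (by simp)
  refine le_trans ?_ (key v')
  unfold bdV
  rw [BVU.tv_true h2, inf_top_eq]
  refine le_iInf₂ (fun s hs => ?_)
  exact iInf₂_le s (h1.trans_le hs)

theorem nuV_mono {R : W → W → B} (hR : BTree R) {s t v w : W} (h : ¬ v ≤ w) :
    R s t ⊓ (nuV R s v ⊓ nuV R t w) = ⊥ := by
  have hwv : w < v := not_le.1 h
  rw [eq_bot_iff]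
  have h1 : R s t ⊓ (nuV R s v ⊓ nuV R t w) ≤ (bdV R s w)ᶜ :=
    inf_le_right.trans (inf_le_left.trans (nuV_le_compl R hwv))
  have h3 : ∀ r, w ≤ r → R s t ⊓ (nuV R s v ⊓ nuV R t w) ≤ (R r t)ᶜ := fun r hr =>
    inf_le_right.trans (inf_le_right.trans (inf_le_left.trans (bdV_le R hr)))
  have h2 : R s t ⊓ (nuV R s v ⊓ nuV R t w) ≤ bdV R s w := by
    apply le_inf
    · refine le_iInf₂ (fun r hr => ?_)
      rw [le_compl_iff_disjoint_right, disjoint_iff, eq_bot_iff]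
      calc R s t ⊓ (nuV R s v ⊓ nuV R t w) ⊓ R r s ≤ R r t ⊓ (R r t)ᶜ := by
            apply le_inf
            · refine le_trans ?_ (hR.trans r s t)
              exact le_inf inf_le_right (inf_le_left.trans inf_le_left)
            · exact inf_le_left.trans (h3 r hr)
        _ = ⊥ := inf_compl_eq_bot
        _ ≤ ⊥ := le_rfl
    · by_cases hs : s < w
      · rw [BVU.tv_true hs]; exact le_top
      · have h4 := h3 s (not_lt.1 hs)
        calc R s t ⊓ (nuV R s v ⊓ nuV R t w) ≤ R s t ⊓ (R s t)ᶜ := le_inf inf_le_left h4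
          _ = ⊥ := inf_compl_eq_bot
          _ ≤ _ := bot_le
  calc R s t ⊓ (nuV R s v ⊓ nuV R t w) ≤ bdV R s w ⊓ (bdV R s w)ᶜ := le_inf h2 h1
    _ = ⊥ := inf_compl_eq_bot
    _ ≤ ⊥ := le_rfl

theorem niceLt_zero {R : W → W → B} (hR : BTree R) (s t : V) (h : s ∉ pre t) : niceLt R s t = ⊥ := by
  unfold niceLt
  by_cases h1 : s.1 ≤ t.1
  · have h2 : t.1 ≤ s.2 := by
      by_contra h3
      exact h ⟨h1, not_le.1 h3⟩
    rw [eq_bot_iff]
    calc R s.2 t.2 ⊓ (nuV R s.2 s.1 ⊓ nuV R t.2 t.1) ≤ R s.2 t.2 ⊓ (R s.2 t.2)ᶜ :=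
          inf_le_inf le_rfl (inf_le_right.trans (inf_le_left.trans (bdV_le R h2)))
      _ = ⊥ := inf_compl_eq_bot
      _ ≤ ⊥ := le_rfl
  · exact nuV_mono hR h1

theorem niceLt_irrefl {R : W → W → B} (hR : BTree R) (t : V) : niceLt R t t = ⊥ := by
  unfold niceLt
  rw [hR.irrefl, bot_inf_eq]

theorem niceLt_trans {R : W → W → B} (hR : BTree R) (r s t : V) :
    niceLt R r s ⊓ niceLt R s t ≤ niceLt R r t := by
  unfold niceLt
  refine le_inf ?_ (le_inf ?_ ?_)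
  · exact (inf_le_inf inf_le_left inf_le_left).trans (hR.trans _ _ _)
  · exact inf_le_left.trans (inf_le_right.trans inf_le_left)
  · exact inf_le_right.trans (inf_le_right.trans inf_le_right)

theorem niceLt_comp {R : W → W → B} (hR : BTree R) (r s t : V) (h : r ≠ s) :
    niceLt R r t ⊓ niceLt R s t ≤ niceLt R r s ⊔ niceLt R s r := by
  have a1 : niceLt R r t ⊓ niceLt R s t ≤ nuV R r.2 r.1 :=
    inf_le_left.trans (inf_le_right.trans inf_le_left)
  have a2 : niceLt R r t ⊓ niceLt R s t ≤ nuV R s.2 s.1 :=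
    inf_le_right.trans (inf_le_right.trans inf_le_left)
  by_cases h2 : r.2 = s.2
  · have h1 : r.1 ≠ s.1 := fun h1 => h (Prod.ext h1 h2)
    have h3 := nuV_disj R s.2 h1
    rw [h2] at a1
    calc niceLt R r t ⊓ niceLt R s t ≤ nuV R s.2 r.1 ⊓ nuV R s.2 s.1 := le_inf a1 a2
      _ = ⊥ := h3
      _ ≤ _ := bot_le
  · have h3 : niceLt R r t ⊓ niceLt R s t ≤ R r.2 s.2 ⊔ R s.2 r.2 :=
      (inf_le_inf inf_le_left inf_le_left).trans (hR.comp _ _ _ h2)
    calc niceLt R r t ⊓ niceLt R s t ≤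
          (R r.2 s.2 ⊔ R s.2 r.2) ⊓ (nuV R r.2 r.1 ⊓ nuV R s.2 s.1) := le_inf h3 (le_inf a1 a2)
      _ = (R r.2 s.2 ⊓ (nuV R r.2 r.1 ⊓ nuV R s.2 s.1)) ⊔
          (R s.2 r.2 ⊓ (nuV R r.2 r.1 ⊓ nuV R s.2 s.1)) := inf_sup_right _ _ _
      _ ≤ niceLt R r s ⊔ niceLt R s r := by
          unfold niceLt
          rw [inf_comm (nuV R s.2 s.1) (nuV R r.2 r.1)]

end Pool.Agent.Lib.STD
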