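import Pool.Agent.Lib.BSI.Proj
import Pool.Agent.Lib.BVU.RO
import Pool.Agent.Lib.STD.Emb

/-!
# Module STD.PK: the algebra of all conditions of an iteration system
-/

set_option autoImplicit false

namespace Pool.Agent.Lib.STD

open Set Pool.Agent.Lib.BSI Pool.Agent.Lib.BVU

universe u

/-- the canonical map into the regular open algebra -/
theorem den_em (P : Type u) [Preorder P] : Den (BVU.em : P → ROP P) where
  ne := em_ne_bot
  mono h := em_mono h
  dense _ hb := exists_em hb
  compat _ _ h := compat_of h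

variable {C : Type} [Preorder C] {Rel : ∀ (B : Type) [CompleteBooleanAlgebra B], RelF B}

/-- the algebra of all conditions -/
abbrev BK (S : It C Rel) : Type 1 := ROP (S.Cnd univ)

/-- the embedding of `B g` into the algebra of all conditions -/
noncomputable def iE (S : It C Rel) (g : Ordinal.{0}) (b : S.B g) : BK S :=
  upg (BVU.em : S.Cnd univ → BK S) (S.emc g) (S.res g) b

variable {S : It C Rel}

/-- a raw condition as an element of the order of conditions -/
def mkC {I : Set Ordinal.{0}} (p : Raw C) (hp : S.In I p) : S.Cnd I := ⟨p, hp⟩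

theorem em_le_iE {g : Ordinal.{0}} (p : S.Cnd univ) (b : S.B g) :
    BVU.em p ≤ iE S g b ↔ S.em g (p.1.rs g) ≤ b :=
  em_le_upg (den_em _) (S.den g) (S.res_mono g) (S.res_proj (subset_univ _)) p b

theorem cemb_iE (S : It C Rel) (g : Ordinal.{0}) : CEmb (iE S g) where
  compl b := upg_compl (den_em _) (S.den g) (S.res_mono g) (S.res_proj (subset_univ _)) b
  sSup X := by
    rw [sSup_eq_iSup', sSup_image']
    exact upg_iSup (den_em _) (S.den g) (S.res_mono g) (S.res_proj (subset_univ _)) _
  ne b hb := by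
    obtain ⟨p, hp, hpb⟩ := S.em_dense g b hb
    intro h
    have h1 : BVU.em (mkC p hp.univ) ≤ iE S g b := by
      rw [em_le_iE]
      show S.em g (p.rs g) ≤ b
      rw [Raw.rs_eq_self hp.1]
      exact hpb
    rw [h] at h1
    exact em_ne_bot _ (le_bot_iff.1 h1)

/-- a condition with support below `g` as a condition -/
def toK {g : Ordinal.{0}} (d : S.Cnd (Iio g)) : S.Cnd univ := mkC d.1 d.2.univ

theorem iE_emc {g : Ordinal.{0}} (d : S.Cnd (Iio g)) : iE S g (S.emc g d) = BVU.em (toK d) := by
  apply (den_em (S.Cnd univ)).eq_of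
  intro p
  rw [em_le_iE]
  constructor
  · intro h
    apply (den_em (S.Cnd univ)).em_le_of
    intro r hr h1
    have h2 : S.emc g (S.res g r) ≤ S.emc g d := ((S.den g).mono (S.res_mono g _ _ hr)).trans h
    have h3 : S.emc g (S.res g r) ⊓ S.emc g d ≠ ⊥ := by
      rw [inf_eq_left.2 h2]
      exact (S.den g).ne _
    obtain ⟨s, hs1, hs2⟩ := (S.den g).compat _ _ h3
    have h4 : BVU.em (mkC (s.1.am r.1 g) (It.am_In r.2 s.2 (subset_univ _) hs1)) ≤ ⊥ := by
      rw [← h1]
      refine le_inf (em_mono (It.am_le r.2 s.2 hs1)) (em_mono ?_)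
      show S.LE (s.1.am r.1 g) d.1
      refine It.letrans (It.am_In r.2 s.2 (subset_univ _) hs1) s.2.univ d.2.univ ?_ hs2
      have h5 := It.lers_self (It.am_In r.2 s.2 (subset_univ _) hs1) g
      rwa [Raw.am_rs_self _ s.2.1] at h5
    exact em_ne_bot _ (le_bot_iff.1 h4)
  · intro h
    have h1 : S.emc g (S.res g p) ≤ S.emc g d := by
      apply (S.den g).em_le_of
      intro r hr h2
      obtain ⟨q, hq, hqr⟩ := S.res_proj (subset_univ _) p r hr
      have h3 : BVU.em q ⊓ BVU.em (toK d) ≠ ⊥ := by
        rw [inf_eq_left.2 ((em_mono hq).trans h)]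
        exact em_ne_bot _
      obtain ⟨s, hs1, hs2⟩ := compat_of h3
      apply (S.den g).ne (S.res g s)
      rw [← le_bot_iff, ← h2]
      refine le_inf ((S.den g).mono ((S.res_mono g _ _ hs1).trans hqr)) ((S.den g).mono ?_)
      have h4 : S.LE (s.1.rs g) (d.1.rs g) := It.lers hs2 g
      rwa [Raw.rs_eq_self d.2.1] at h4
    exact h1

end Pool.Agent.Lib.STD
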