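import Pool.Agent.Lib.STD.PK
import Pool.Agent.Lib.STD.Cof

/-!
# Module STD.Refl: small families of elements of the algebra come from some `B g`

PROOF of exists_refl.
(1) For `r : S.Cnd (Iio h)` and `a : A` there is `d : S.Cnd univ`, `d ≤ toK r`, with `em d ≤ X a` or `em d ≤ (X a)ᶜ` (BVU.exists_decide). Its
    support is countable (`d.2.2.1`), so bounded. As `S.Cnd (Iio h)` and `A` are small (hsm), there is `F h : Ordinal.{0}` such that for all `r`, `a` such a `d` exists with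
    `d.1.supp ⊆ Iio (F h)` (supremum of a small family of ordinals: Ordinal.le_iSup, index type `Shrink (S.Cnd (Iio h)) × A`).
(2) exists_closed gives `g > γ₀` closed under `F` such that countable subsets of `Iio g` are bounded below `g`. So for `r : S.Cnd (Iio g)`: the support is
    contained in `Iio h`, `h < g`, hence `r` is in `S.Cnd (Iio h)` (PreIt.In.mono), and there is `d` with support in `Iio (F h) ⊆ Iio g`. So for all `a`: for all
    `r : S.Cnd (Iio g)` there is `d : S.Cnd (Iio g)`, `d ≤ r`, `em (toK d) ≤ X a` or `em (toK d) ≤ (X a)ᶜ`.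
(3) For `a : A` let `b = sSup {S.emc g d | em (toK d) ≤ X a}`. By (cemb_iE S g).sSup and iE_emc `iE S g b = sSup of em (toK d)` over these `d`, so `≤ X a`. Conversely
    let `Y'` be the same for `(X a)ᶜ`. Every `p : S.Cnd univ` has an extension `q` with `em q ≤ em (toK d)` for one of the `d` in (2): take `d ≤ S.res g p`,
    `q = am d p g` (S.res_proj gives `q ≤ p` with `S.res g q ≤ d`, and `q ≤ toK (S.res g q)` by It.lers_self). So if `em p ≤ X a ⊓ (iE S g b)ᶜ`, the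
    extension `q` with its `d`: `em q ≤ em (toK d)`; if `em (toK d) ≤ X a` then `em q ≤ iE S g b`, contradiction, if `em (toK d) ≤ (X a)ᶜ` contradiction with `em q ≤ X a`.
    Use BVU.le_of_em / exists_em (BVU/RO.lean).
-/

set_option autoImplicit false

namespace Pool.Agent.Lib.STD

open Set Pool.Agent.Lib.BSI Pool.Agent.Lib.BVU

variable {C : Type} [Preorder C] {Rel : ∀ (B : Type) [CompleteBooleanAlgebra B], RelF B}
  {S : It C Rel}

namespace ReflAux

/-- every condition can be decided by a condition with bounded support -/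
theorem step {A : Type} (X : A → BK S) (h : Ordinal.{0}) (r : S.Cnd (Iio h)) (a : A) :
    ∃ γ : Ordinal.{0}, ∃ d : S.Cnd univ, d ≤ toK r ∧
      (BVU.em d ≤ X a ∨ BVU.em d ≤ (X a)ᶜ) ∧ d.1.supp ⊆ Iio γ := by
  obtain ⟨d, hd, hdec⟩ := BVU.exists_decide (toK r) (X a)
  have hcd : Countable d.1.supp := d.2.2.1.to_subtype
  obtain ⟨γ, hγ⟩ : BddAbove d.1.supp := Ordinal.bddAbove_of_small
  refine ⟨Order.succ γ, d, hd, hdec, ?_⟩
  intro β hβ
  exact Order.lt_succ_of_le (hγ hβ)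

theorem closed (hsm : ∀ h : Ordinal.{0}, Small.{0} (S.Cnd (Iio h))) {A : Type} (X : A → BK S)
    (γ₀ : Ordinal.{0}) : ∃ g, γ₀ < g ∧ ∀ (r : S.Cnd (Iio g)) (a : A), ∃ d : S.Cnd (Iio g),
      d ≤ r ∧ (BVU.em (toK d) ≤ X a ∨ BVU.em (toK d) ≤ (X a)ᶜ) := by
  choose γ d h1 h2 h3 using step (S := S) X
  obtain ⟨g, hg, hF, hS⟩ := exists_closed
    (fun h => ⨆ x : S.Cnd (Iio h) × A, γ h x.1 x.2) γ₀
  refine ⟨g, hg, ?_⟩
  intro r a
  obtain ⟨h, hh, hsub⟩ := hS r.1.supp r.2.2.1 r.2.1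
  have hr' : S.In (Iio h) r.1 := r.2.mono hsub
  have e1 := h1 h ⟨r.1, hr'⟩ a
  have e2 := h2 h ⟨r.1, hr'⟩ a
  have e3 := h3 h ⟨r.1, hr'⟩ a
  have e4 : γ h ⟨r.1, hr'⟩ a < g := by
    refine lt_of_le_of_lt ?_ (hF h hh)
    have := hsm h
    exact Ordinal.le_iSup (fun x : S.Cnd (Iio h) × A => γ h x.1 x.2) (⟨r.1, hr'⟩, a)
  have e5 : S.In (Iio g) (d h ⟨r.1, hr'⟩ a).1 :=
    (d h ⟨r.1, hr'⟩ a).2.mono (e3.trans (Iio_subset_Iio e4.le))
  exact ⟨⟨(d h ⟨r.1, hr'⟩ a).1, e5⟩, e1, e2⟩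

end ReflAux

open ReflAux in
theorem exists_refl (hsm : ∀ h : Ordinal.{0}, Small.{0} (S.Cnd (Iio h))) {A : Type} (X : A → BK S)
    (γ₀ : Ordinal.{0}) : ∃ g, γ₀ < g ∧ ∀ a, ∃ b : S.B g, iE S g b = X a := by
  obtain ⟨g, hg, hd⟩ := closed hsm X γ₀
  refine ⟨g, hg, fun a => ⟨sSup ((S.emc g) '' {d | BVU.em (toK d) ≤ X a}), ?_⟩⟩
  rw [(cemb_iE S g).sSup]
  apply le_antisymm
  · refine sSup_le ?_
    rintro _ ⟨_, ⟨d, hda, rfl⟩, rfl⟩
    rw [iE_emc]
    exact hda
  · apply BVU.le_of_em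
    intro p hp
    obtain ⟨d, hdr, hdec⟩ := hd (S.res g p) a
    obtain ⟨q, hq, hqd⟩ := It.res_proj S (subset_univ _) p d hdr
    have h1 : BVU.em q ≤ BVU.em (toK d) := by
      refine em_mono ?_
      show S.LE q.1 d.1
      exact It.letrans q.2 (S.res g q).2.univ d.2.univ (It.lers_self q.2 g) hqd
    rcases hdec with h | h
    · refine ⟨q, hq, h1.trans (le_sSup ?_)⟩
      exact ⟨S.emc g d, ⟨d, h, rfl⟩, iE_emc d⟩
    · exact absurd (h1.trans h) (fun h2 => not_em_compl ((em_mono hq).trans hp) h2)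

end Pool.Agent.Lib.STD
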