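import Pool.Agent.Lib.STD.TreeB

/-!
# STD.SpecB: the tree `(T, R)` is special in the model

`spN τ a F` is the name of the function `T → ω` with `τ w ↦ k` with Boolean value `a w ⊓ F w k`.
-/

set_option autoImplicit false

namespace Pool.Agent.Lib.STD

open Set Pool.Agent.Lib.BVU Pool.Agent.Lib.BVU.bSet
open Pool.Agent.Lib.BVM (Fml Sat ModelZFC IsEmp IsSucc IsInductive IsOmega IsUPair IsPair App IsFunOn IsFun IsSurj)

universe u

variable {B : Type u} [CompleteBooleanAlgebra B] {W : Type} [LinearOrder W]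

/-- name of the specialising function -/
noncomputable def spN (τ : W → bSet B) (a : W → B) (F : W → ℕ → B) : bSet B :=
  graphName (ι := ULift.{u} (W × ℕ)) (fun i => τ i.down.1) (fun i => num i.down.2)
    (fun i => a i.down.1 ⊓ F i.down.1 i.down.2)

namespace SpecBAux

omit [LinearOrder W] in
theorem of_mem_spN {τ : W → bSet B} {a : W → B} {F : W → ℕ → B} {Z : bSet B}
    {P Q : Ultra B → Prop} (hP : BV P) (hQ : BV Q)
    (h : ∀ w k U, a w ∈ U → F w k ∈ U → q U Z = q U (bpair (τ w) (num k)) → Q U → P U)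
    {U : Ultra B} (h1 : E U (q U Z) (q U (spN τ a F))) (h2 : Q U) : P U :=
  of_mem (X := spN τ a F) hP hQ (fun p U hp hZ hQ =>
    h (ULift.down p).1 (ULift.down p).2 U (Ultra.inf_iff.1 hp).1 (Ultra.inf_iff.1 hp).2 hZ hQ) h1 h2

omit [LinearOrder W] in
theorem of_app {τ : W → bSet B} {a : W → B} {F : W → ℕ → B} {X Y : bSet B}
    {P Q : Ultra B → Prop} (hP : BV P) (hQ : BV Q)
    (h : ∀ w k U, a w ∈ U → F w k ∈ U → q U X = q U (τ w) → q U Y = q U (num k) → Q U → P U)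
    {U : Ultra B} (h1 : App (E U) (q U (spN τ a F)) (q U X) (q U Y)) (h2 : Q U) : P U := by
  rw [app_iff] at h1
  refine of_mem_spN hP hQ (fun w k U hw hk hZ hQ => ?_) h1 h2
  obtain ⟨h3, h4⟩ := bpair_inj.1 hZ
  exact h w k U hw hk h3 h4 hQ

omit [LinearOrder W] in
theorem app_of {τ : W → bSet B} {a : W → B} {F : W → ℕ → B} {w : W} {k : ℕ} {U : Ultra B}
    (hw : a w ∈ U) (hk : F w k ∈ U) :
    App (E U) (q U (spN τ a F)) (q U (τ w)) (q U (num k)) :=
  app_iff.2 (E_func (X := spN τ a F) (ULift.up (w, k)) (Ultra.inf_iff.2 ⟨hw, hk⟩))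

theorem eq_of {T : bSet B} {b : B} {τ : W → bSet B} {a : W → B} (hC : Coding T b τ a)
    {w w' : W} {U : Ultra B} (hw : a w ∈ U) (hw' : a w' ∈ U) (h : q U (τ w) = q U (τ w')) :
    w = w' := by
  by_contra hne
  exact hC.ne w w' U hne hw hw' h

theorem mem_of {T : bSet B} {b : B} {τ : W → bSet B} {a : W → B} (hC : Coding T b τ a)
    {F : W → ℕ → B} {w : W} {k : ℕ} {U : Ultra B} (hw : a w ∈ U)
    (h : App (E U) (q U (spN τ a F)) (q U (τ w)) (q U (num k))) : F w k ∈ U := by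
  refine of_app (P := fun U => F w k ∈ U) (Q := fun U => a w ∈ U) (BV.of_mem _) (BV.of_mem _)
    (fun w' k' U hw' hk' h3 h4 hw => ?_) h hw
  obtain rfl := eq_of hC hw hw' h3
  obtain rfl := num_inj h4
  exact hk'

end SpecBAux

open SpecBAux in
theorem isSpecial_of_BSpec {T R : bSet B} {b : B} {τ : W → bSet B} {a : W → B}
    (hC : Coding T b τ a) (hT : ∀ U : Ultra B, b ∈ U → IsTree (E U) (q U T) (q U R))
    {F : W → ℕ → B} (hF : BSpec (treeB R τ a) F) (U : Ultra B) (hU : b ∈ U) :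
    IsSpecial (E U) (q U T) (q U R) := by
  refine ⟨q U omega, q U (spN τ a F), isOmega_omega U, ⟨⟨?_, ?_⟩, ?_⟩, ?_⟩
  · intro p hp
    obtain ⟨Z, rfl⟩ := q_surj p
    refine of_mem_spN (P := fun U => ∃ x y, E U x (q U T) ∧ IsPair (E U) x y (q U Z))
      (BV.ex fun x => BV.ex fun y => (BV.mem _ _).and (BV.isPair x y Z)) (BV.const True)
      (fun w k U hw _ hZ _ => ?_) hp trivial
    exact ⟨q U (τ w), q U (num k), hC.mem w U hw, isPair_iff.2 hZ⟩
  · intro x hx
    obtain ⟨X, rfl⟩ := q_surj x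
    refine hC.cov X (fun U => ∃! y, App (E U) (q U (spN τ a F)) (q U X) y) (fun _ => True)
      (BV.exUnique fun y => BV.app _ X y) (BV.const True) (fun w U hw hX _ => ?_) U hU hx trivial
    rw [hX]
    refine of_iSup (t := fun k => F w k)
      (P := fun U => ∃! y, App (E U) (q U (spN τ a F)) (q U (τ w)) y) (Q := fun U => a w ∈ U)
      (BV.exUnique fun y => BV.app _ _ y) (BV.of_mem _) (fun k U hk hw => ?_)
      (by rw [hF.sup w]; exact Ultra.top) hw
    refine ⟨q U (num k), app_of hw hk, fun y hy => ?_⟩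
    obtain ⟨Y, rfl⟩ := q_surj y
    refine of_app (P := fun U => q U Y = q U (num k)) (Q := fun U => a w ∈ U ∧ F w k ∈ U)
      (BV.eq _ _) ((BV.of_mem _).and (BV.of_mem _))
      (fun w' k' U hw' hk' h3 h4 hQ => ?_) hy ⟨hw, hk⟩
    obtain rfl := eq_of hC hQ.1 hw' h3
    by_cases hkk : k = k'
    · rw [h4, hkk]
    · exfalso
      have h5 : F w k ⊓ F w k' ∈ U := Ultra.inf_iff.2 ⟨hQ.2, hk'⟩
      rw [hF.disj w k k' hkk] at h5
      exact Ultra.bot h5
  · intro x y hxy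
    obtain ⟨X, rfl⟩ := q_surj x
    obtain ⟨Y, rfl⟩ := q_surj y
    refine of_app (P := fun U => E U (q U Y) (q U omega)) (Q := fun _ => True)
      (BV.mem _ _) (BV.const True) (fun w k U _ _ _ h4 _ => ?_) hxy trivial
    rw [h4]
    exact E_num_omega U k
  · intro s t k hst hs ht
    obtain ⟨X, rfl⟩ := q_surj s
    obtain ⟨Y, rfl⟩ := q_surj t
    obtain ⟨K, rfl⟩ := q_surj k
    have hmem : E U (q U X) (q U T) ∧ E U (q U Y) (q U T) := by
      obtain ⟨p, hp, hpR⟩ := hst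
      obtain ⟨s', t', hs', ht', hp'⟩ := (hT U hU).1 p hpR
      obtain ⟨rfl, rfl⟩ := pair_inj hp hp'
      exact ⟨hs', ht'⟩
    refine hC.cov X (fun _ => False) (fun U => E U (q U Y) (q U T) ∧
        App (E U) (q U R) (q U X) (q U Y) ∧ App (E U) (q U (spN τ a F)) (q U X) (q U K) ∧
        App (E U) (q U (spN τ a F)) (q U Y) (q U K)) (BV.const False)
      ((BV.mem _ _).and ((BV.app _ _ _).and ((BV.app _ _ _).and (BV.app _ _ _))))
      (fun w U hw hX hQ => ?_) U hU hmem.1 ⟨hmem.2, hst, hs, ht⟩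
    obtain ⟨hY, hst, hs, ht⟩ := hQ
    rw [hX] at hst hs
    refine hC.cov Y (fun _ => False) (fun U => a w ∈ U ∧
        App (E U) (q U R) (q U (τ w)) (q U Y) ∧ App (E U) (q U (spN τ a F)) (q U (τ w)) (q U K) ∧
        App (E U) (q U (spN τ a F)) (q U Y) (q U K)) (BV.const False)
      ((BV.of_mem _).and ((BV.app _ _ _).and ((BV.app _ _ _).and (BV.app _ _ _))))
      (fun w' U hw' hY hQ => ?_) U (Ultra.mono hw (hC.le w)) hY ⟨hw, hst, hs, ht⟩
    obtain ⟨hw, hst, hs, ht⟩ := hQ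
    rw [hY] at hst ht
    refine of_app (P := fun _ => False) (Q := fun U => a w ∈ U ∧ a w' ∈ U ∧
        App (E U) (q U R) (q U (τ w)) (q U (τ w')) ∧
        App (E U) (q U (spN τ a F)) (q U (τ w')) (q U K)) (BV.const False)
      ((BV.of_mem _).and ((BV.of_mem _).and ((BV.app _ _ _).and (BV.app _ _ _))))
      (fun v l U hv hl h3 h4 hQ => ?_) hs ⟨hw, hw', hst, ht⟩
    obtain ⟨hw, hw', hst, ht⟩ := hQ
    obtain rfl := eq_of hC hw hv h3
    rw [h4] at ht
    have h6 := mem_of hC hw' ht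
    have h7 : F w l ⊓ F w' l ⊓ treeB R τ a w w' ∈ U :=
      Ultra.inf_iff.2 ⟨Ultra.inf_iff.2 ⟨hl, h6⟩, mem_treeB.2 ⟨hw, hw', hst⟩⟩
    rw [hF.inj w w' l] at h7
    exact Ultra.bot h7

end Pool.Agent.Lib.STD
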