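import Pool.Agent.Lib.STD.PK

/-!
# Module STD.SpecG: the generic specialising function at stage `g`

`VK S g p t k`: the condition `p` forces the value `k` at the node `t` (relative theory over `B g`).

PROOFS.
* VK_mono (`q ≤ p`): `S.em g (q.rs g) ≤ S.em g (p.rs g)` (It.em_rs_mono), `Lec g (em g (q.rs g)) (q.f g) (p.f g)` from `q ≤ p`; by val_mono and val_le (Ok of both over
  `em g (q.rs g)`: `q.2.2.2.2 g` and It.okc_mono of `p.2.2.2.2 g`).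
* VK_ex: `b = S.em g (p.rs g) ≠ ⊥`, `z = S.e g (p.f g)`; val_ex: `b' ≤ b`, `b' ≠ ⊥`, `z'`, Ok, Le, `k`, Val b' z' t k. `S.e_surj`: `z' = S.e g ξ`, `ξ < ζ g`. It.exists_le' gives `r` with
  `S.In (Iio g) r`, `S.LE r (p.rs g)`, `S.em g r ≤ b'`. `r' = r.upd g ξ` is in `S.In (Iio (succ g))` (It.upd_In), and `S.LE r' (p.rs (succ g))` (It.upd_LE with `s = p.rs g`; `(p.rs g).upd g (p.f g) = p.rs (succ g)`:
  Raw.upd_rs_eq for `p.rs (succ g)`, Raw.rs_rs, Raw.rs_f_lt). `q = r'.am p (succ g)` (It.am_In, It.am_le): `q.rs g = r` (Raw.am_rs_le, Raw.upd_rs_self) and `q.f g = ξ` (Raw.am_f_lt, Raw.upd_f_self),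
  so VK q t k by val_mono (`em g r ≤ b'`).
* em_le_spF: if `em p ≤ spF S g t k` then some `q ≤ p` has VK q t k: exists_em_iSup (sSup_image'), compat_of, VK_mono.
* spF_sup: eq_top_of_em and VK_ex. spF_disj: exists_em for a nonzero element, em_le_spF twice, VK_mono, val_uniq (`S.em_ne`).
* spF_lt: nonzero element above `em p`; `p` below `iE g (lt s t)`: `S.em g (p.rs g) ≤ lt s t` (em_le_iE), em_le_spF twice, val_lt.
-/

set_option autoImplicit false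

namespace Pool.Agent.Lib.STD

open Set Pool.Agent.Lib.BSI Pool.Agent.Lib.BVU

variable {C : Type} [Preorder C] {Rel : ∀ (B : Type) [CompleteBooleanAlgebra B], RelF B}

/-- `p` forces the value `k` at the node `t` -/
def VK (S : It C Rel) (g : Ordinal.{0}) (p : S.Cnd univ) (t : (Rel (S.B g)).Nd) (k : ℕ) : Prop :=
  (Rel (S.B g)).Val (S.em g (p.1.rs g)) (S.e g (p.1.f g)) t k

/-- Boolean value of: the value at `t` is `k` -/
noncomputable def spF (S : It C Rel) (g : Ordinal.{0}) (t : (Rel (S.B g)).Nd) (k : ℕ) : BK S :=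
  sSup (BVU.em '' {p : S.Cnd univ | VK S g p t k})

variable {S : It C Rel} {g : Ordinal.{0}}

theorem VK_mono {p q : S.Cnd univ} (h : q ≤ p) {t : (Rel (S.B g)).Nd} {k : ℕ} (hp : VK S g p t k) :
    VK S g q t k := by
  have h1 : S.em g (q.1.rs g) ≤ S.em g (p.1.rs g) := It.em_rs_mono q.2 p.2 h g
  exact (Rel (S.B g)).val_le (q.2.2.2.2 g) (It.okc_mono h1 (p.2.2.2.2 g)) (h.2 g)
    ((Rel (S.B g)).val_mono h1 hp)

theorem VK_ex (p : S.Cnd univ) (t : (Rel (S.B g)).Nd) : ∃ q ≤ p, ∃ k, VK S g q t k := by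
  obtain ⟨b', hb', hne, z', hok, hle, k, hval⟩ :=
    (Rel (S.B g)).val_ex (S.em_ne g _ (p.2.rs g)) (p.2.2.2.2 g) t
  obtain ⟨ξ, hξ, rfl⟩ := S.e_surj g z'
  obtain ⟨r, hr, hrp, hrb⟩ := It.exists_le' (p.2.rs g) hne hb'
  have hr' : S.In (Iio (Order.succ g)) (r.upd g ξ) :=
    It.upd_In hr hξ ((Rel (S.B g)).ok_mono hrb hok)
  have hLE : S.LE (r.upd g ξ) (p.1.rs (Order.succ g)) := by
    have h2 : S.LE (r.upd g ξ) ((p.1.rs g).upd g (p.1.f g)) :=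
      It.upd_LE hr (p.2.rs g) hrp ((Rel (S.B g)).le_mono hrb hle)
    have h3 := Raw.upd_rs_eq (Raw.supp_rs p.1 (Order.succ g))
    rw [Raw.rs_rs _ (Order.le_succ g), Raw.rs_f_lt _ (Order.lt_succ g)] at h3
    rwa [h3] at h2
  refine ⟨⟨(r.upd g ξ).am p.1 (Order.succ g), It.am_In p.2 hr' (subset_univ _) hLE⟩,
    It.am_le p.2 hr' hLE, k, ?_⟩
  show (Rel (S.B g)).Val (S.em g (((r.upd g ξ).am p.1 (Order.succ g)).rs g))
    (S.e g (((r.upd g ξ).am p.1 (Order.succ g)).f g)) t k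
  rw [Raw.am_rs_le _ _ (Order.le_succ g), Raw.upd_rs_self _ hr.1, Raw.am_f_lt _ _ (Order.lt_succ g),
    Raw.upd_f_self]
  exact (Rel (S.B g)).val_mono hrb hval

theorem em_le_spF {p : S.Cnd univ} {t : (Rel (S.B g)).Nd} {k : ℕ} (h : BVU.em p ≤ spF S g t k) :
    ∃ q ≤ p, VK S g q t k := by
  unfold spF at h
  rw [sSup_image'] at h
  obtain ⟨q, hq, ⟨x, hx⟩, hqx⟩ := exists_em_iSup h
  have h1 : BVU.em q ⊓ BVU.em x ≠ ⊥ := by
    rw [inf_eq_left.2 hqx]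
    exact em_ne_bot q
  obtain ⟨r, hrq, hrx⟩ := compat_of h1
  exact ⟨r, hrq.trans hq, VK_mono hrx hx⟩

theorem spF_sup (t : (Rel (S.B g)).Nd) : ⨆ k, spF S g t k = ⊤ := by
  apply eq_top_of_em
  intro p
  obtain ⟨q, hq, k, hk⟩ := VK_ex (g := g) p t
  exact ⟨q, hq, le_iSup_of_le k (le_sSup ⟨q, hk, rfl⟩)⟩

theorem spF_disj (t : (Rel (S.B g)).Nd) (k l : ℕ) (h : k ≠ l) : spF S g t k ⊓ spF S g t l = ⊥ := by
  by_contra hcon
  obtain ⟨p, hp⟩ := exists_em hcon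
  obtain ⟨q, hq, hqk⟩ := em_le_spF (hp.trans inf_le_left)
  obtain ⟨r, hr, hrl⟩ := em_le_spF ((em_mono hq).trans (hp.trans inf_le_right))
  exact h ((Rel (S.B g)).val_uniq (S.em_ne g _ (r.2.rs g)) (r.2.2.2.2 g) (VK_mono hr hqk) hrl)

theorem spF_lt (s t : (Rel (S.B g)).Nd) (k : ℕ) :
    spF S g s k ⊓ spF S g t k ⊓ iE S g ((Rel (S.B g)).lt s t) = ⊥ := by
  by_contra hcon
  obtain ⟨p, hp⟩ := exists_em hcon
  obtain ⟨q, hq, hqk⟩ := em_le_spF (hp.trans (inf_le_left.trans inf_le_left))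
  obtain ⟨r, hr, hrl⟩ := em_le_spF ((em_mono hq).trans (hp.trans (inf_le_left.trans inf_le_right)))
  have h1 : S.em g (p.1.rs g) ≤ (Rel (S.B g)).lt s t := (em_le_iE p _).1 (hp.trans inf_le_right)
  have h2 : S.em g (r.1.rs g) ≤ S.em g (p.1.rs g) := It.em_rs_mono r.2 p.2 (hr.trans hq) g
  exact (Rel (S.B g)).val_lt (S.em_ne g _ (r.2.rs g)) (r.2.2.2.2 g) (h2.trans h1)
    (VK_mono hr hqk) hrl rfl

end Pool.Agent.Lib.STD
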