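import Pool.Agent.Lib.STD.Comb
import Pool.Agent.Lib.STD.Coding

/-!
# Module STD.TreeB: the Boolean valued tree on `W` which codes the tree `(T, R)`

`treeB R τ a s t = a s ⊓ (a t ⊓ bv (fun U => App (E U) (q U R) (q U (τ s)) (q U (τ t))))`.

PROOF of treeB_tree (BTree). irrefl, trans, comp: pointwise in every ultrafilter `U` (`Ultra.le_of_forall`, mem_treeB; `a s ∈ U`
implies `b ∈ U` by `hC.le`, so IsTree holds in `Mod U`). irrefl: second clause of IsTree. trans: third clause. comp: `τ r ≠ τ s` in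
the model by `hC.ne`. App R (τ r) (τ t), App R (τ s) (τ t): the set `{τ r, τ s}` (IsTree fourth clause with
`x = q U (bSet.ins (τ s) (bSet.ins (τ r) bSet.emp))`, E_ins, E_emp) has a least element.
bdd at `t`: it is enough that below each `e ≠ ⊥` there is `e' ≠ ⊥`, `e' ≤ e`, and `v` with `e' ⊓ treeB s t = ⊥` for `v < s`
(so `e' ≤ ⨆ v, ⨅ s > v, (treeB s t)ᶜ`; if the supremum were not `⊤`, take `e` its complement). If `e ⊓ a t = ⊥`
take `e' = e` and any `v` (CtblBdd gives a point). Otherwise replace `e` by `e ⊓ a t`. For all `U` with `e ∈ U` CtblPred holds in `Mod U`: there is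
`p` with `∀ s, E s p ↔ App R s (τ t)` and p countable. By exists_name for the predicate
`P U p = (∀ s, E U s p ↔ App (E U) (q U R) s (q U (τ t))) ∧ IsCtbl (E U) p` get a name `A`; then by exists_name for
`P U f = IsInj (E U) f (q U A) (q U omega)` a name `f` (isCtbl_iff). Apply bdd_of_inj with `X s = treeB s t`; hmem: `A` contains
`τ s` if `treeB s t ∈ U`; hne: hC.ne.

PROOF of treeB_noChain. Let `e = ⨅ v, ⨆ w, ⨆ _ : v < w, c w`, assume `e ≠ ⊥`. Claim 1: `e ⊓ c s ≤ a s` for all `s`: `e ≤ ⨆ w > s, c w`, and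
`c s ⊓ c w ≤ treeB s w ⊔ treeB w s ≤ a s` for `w ≠ s`. So `e ⊓ c s ≤ b`, and `e ≤ ⨆ w, c w` (there is a point `v`) gives
`e ≤ b`. Name of the chain: `Cn = bSet.mk (ULift W) (fun w => τ w.down) (fun w => c w.down)`. For `U` with `e ∈ U`:
ChainIn (T) (R) (Cn): case analysis with of_mem (X = Cn) (Q contains `e ∈ U`): an element is `τ w` with `c w ∈ U`, so `a w ∈ U`, in T by
hC.mem; for two elements `τ s`, `τ t`: `s = t` or `treeB s t ⊔ treeB t s ∈ U` (Ultra.sup_iff, mem_treeB). Hence Cn is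
countable in `Mod U` (hypothesis hch as `b ∈ U`). exists_name gives a name `f` with IsInj f Cn omega for all `U` with `e ∈ U`. bdd_of_inj with
`X = c`, `A = Cn` (hmem: E_func or le_bmem_mk; hne: hC.ne and Claim 1) gives `e' ≠ ⊥`, `e' ≤ e`, `v` with
`e' ⊓ c s = ⊥` for `v < s`; but `e' ≤ ⨆ w > v, c w`, so `e' = ⊥` (inf_iSup_eq). Contradiction.
-/

set_option autoImplicit false

namespace Pool.Agent.Lib.STD

open Set Pool.Agent.Lib.BVU Pool.Agent.Lib.BVU.bSet
open Pool.Agent.Lib.BVM (Fml Sat ModelZFC IsEmp IsSucc IsInductive IsOmega IsUPair IsPair App IsFunOn IsFun IsSurj)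

universe u

variable {B : Type u} [CompleteBooleanAlgebra B] {W : Type} [LinearOrder W]

/-- the Boolean valued relation on `W` -/
noncomputable def treeB (R : bSet B) (τ : W → bSet B) (a : W → B) (s t : W) : B :=
  a s ⊓ (a t ⊓ bv (fun U => App (E U) (q U R) (q U (τ s)) (q U (τ t))))

omit [LinearOrder W] in
theorem mem_treeB {R : bSet B} {τ : W → bSet B} {a : W → B} {s t : W} {U : Ultra B} :
    treeB R τ a s t ∈ U ↔ a s ∈ U ∧ a t ∈ U ∧ App (E U) (q U R) (q U (τ s)) (q U (τ t)) := by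
  unfold treeB
  rw [Ultra.inf_iff, Ultra.inf_iff, ← (BV.app R (τ s) (τ t)).iff U]

omit [LinearOrder W] in
private theorem top_of_dense {c : B} (h : ∀ b' : B, b' ≠ ⊥ → ∃ b'', b'' ≤ b' ∧ b'' ≠ ⊥ ∧ b'' ≤ c) :
    c = ⊤ := by
  by_contra hcon
  have h1 : cᶜ ≠ ⊥ := fun h2 => hcon (compl_eq_bot.1 h2)
  obtain ⟨b'', h2, h3, h4⟩ := h _ h1
  exact h3 (le_bot_iff.1 ((le_inf h4 h2).trans (inf_compl_self c).le))

theorem treeB_tree (hB : WDist B) (hW : CtblBdd W) {T R : bSet B} {b : B} {τ : W → bSet B} {a : W → B}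
    (hC : Coding T b τ a) (hT : ∀ U : Ultra B, b ∈ U → IsTree (E U) (q U T) (q U R))
    (hp : ∀ U : Ultra B, b ∈ U → CtblPred (E U) (q U T) (q U R)) : BTree (treeB R τ a) := by
  have hb : ∀ {w : W} {U : Ultra B}, a w ∈ U → b ∈ U := fun {w} {U} h => Ultra.mono h (hC.le w)
  refine ⟨fun s => ?_, fun r s t => ?_, fun r s t hrs => ?_, fun t => ?_⟩
  · refine le_bot_iff.1 (Ultra.le_of_forall fun U hU => ?_)
    obtain ⟨h1, -, h3⟩ := mem_treeB.1 hU
    exact absurd h3 ((hT U (hb h1)).2.1 _)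
  · refine Ultra.le_of_forall fun U hU => ?_
    obtain ⟨h1, h2⟩ := Ultra.inf_iff.1 hU
    obtain ⟨h3, h4, h5⟩ := mem_treeB.1 h1
    obtain ⟨h6, h7, h8⟩ := mem_treeB.1 h2
    exact mem_treeB.2 ⟨h3, h7, (hT U (hb h3)).2.2.1 _ _ _ h5 h8⟩
  · refine Ultra.le_of_forall fun U hU => ?_
    obtain ⟨h1, h2⟩ := Ultra.inf_iff.1 hU
    obtain ⟨h3, h4, h5⟩ := mem_treeB.1 h1
    obtain ⟨h6, h7, h8⟩ := mem_treeB.1 h2
    have hx : ∀ m, E U m (q U (bSet.ins (τ s) (bSet.ins (τ r) bSet.emp))) ↔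
        (m = q U (τ r) ∨ m = q U (τ s)) := by
      intro m
      rw [E_ins, E_ins]
      constructor
      · rintro ((h | h) | h)
        · exact absurd h (E_emp m)
        · exact Or.inl h
        · exact Or.inr h
      · rintro (h | h)
        · exact Or.inl (Or.inr h)
        · exact Or.inr h
    obtain ⟨m, hm1, hm2⟩ := (hT U (hb h3)).2.2.2 (q U (τ t))
      (q U (bSet.ins (τ s) (bSet.ins (τ r) bSet.emp))) (hC.mem t U h4)
      ⟨_, (hx _).2 (Or.inl rfl)⟩ (fun m hm => by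
        rcases (hx m).1 hm with rfl | rfl
        · exact h5
        · exact h8)
    have hne := hC.ne r s U hrs h3 h6
    rw [Ultra.sup_iff]
    rcases (hx m).1 hm1 with rfl | rfl
    · rcases hm2 _ ((hx _).2 (Or.inr rfl)) with h | h
      · exact absurd h.symm hne
      · exact Or.inl (mem_treeB.2 ⟨h3, h6, h⟩)
    · rcases hm2 _ ((hx _).2 (Or.inl rfl)) with h | h
      · exact absurd h hne
      · exact Or.inr (mem_treeB.2 ⟨h6, h3, h⟩)
  · refine top_of_dense fun e he => ?_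
    have key : ∃ e', e' ≤ e ∧ e' ≠ ⊥ ∧ ∃ v, ∀ s, v < s → e' ⊓ treeB R τ a s t = ⊥ := by
      by_cases hat : e ⊓ a t = ⊥
      · obtain ⟨v, -⟩ := hW.bdd ∅ countable_empty
        refine ⟨e, le_rfl, he, v, fun s _ => ?_⟩
        rw [← le_bot_iff, ← hat]
        exact inf_le_inf_left _ (inf_le_right.trans inf_le_left)
      · obtain ⟨A, hA⟩ := exists_name
          (P := fun U p => (∀ s, E U s p ↔ App (E U) (q U R) s (q U (τ t))) ∧ IsCtbl (E U) p)
          (fun x => (BV.all (P := fun U s => E U s (q U x) ↔ App (E U) (q U R) s (q U (τ t)))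
            fun s => (BV.mem s x).biimp (BV.app R s (τ t))).and (BV_isCtbl x))
        obtain ⟨f, hf⟩ := exists_name (P := fun U f => IsInj (E U) f (q U A) (q U omega))
          (fun x => BV_isInj x A omega)
        have hA' : ∀ U : Ultra B, e ⊓ a t ∈ U →
            (∀ s, E U s (q U A) ↔ App (E U) (q U R) s (q U (τ t))) ∧ IsCtbl (E U) (q U A) := by
          intro U hU
          have h1 := (Ultra.inf_iff.1 hU).2
          exact hA U (hp U (hb h1) _ (hC.mem t U h1))
        obtain ⟨e', h1, h2, v, h3⟩ := bdd_of_inj hB hW hat (fun s => treeB R τ a s t) τ f A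
          (fun U hU => hf U (isCtbl_iff.1 (hA' U hU).2))
          (fun s U hU hs => ((hA' U hU).1 _).2 (mem_treeB.1 hs).2.2)
          (fun s s' U hss hU hs hs' => hC.ne s s' U hss (mem_treeB.1 hs).1 (mem_treeB.1 hs').1)
        exact ⟨e', h1.trans inf_le_left, h2, v, h3⟩
    obtain ⟨e', h1, h2, v, h3⟩ := key
    refine ⟨e', h1, h2, le_iSup_of_le v (le_iInf fun s => le_iInf fun hs => ?_)⟩
    rw [le_compl_iff_disjoint_right, disjoint_iff]
    exact h3 s hs

theorem treeB_noChain (hB : WDist B) (hW : CtblBdd W) {T R : bSet B} {b : B} {τ : W → bSet B}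
    {a : W → B} (hC : Coding T b τ a)
    (hch : ∀ U : Ultra B, b ∈ U → ∀ c, ChainIn (E U) (q U T) (q U R) c → IsCtbl (E U) c) :
    NoChain (treeB R τ a) := by
  intro c hc
  by_contra he
  obtain ⟨e, hedef⟩ : ∃ e, e = ⨅ v, ⨆ w, ⨆ _ : v < w, c w := ⟨_, rfl⟩
  rw [← hedef] at he
  have hele : ∀ v, e ≤ ⨆ w, ⨆ _ : v < w, c w := fun v => hedef ▸ iInf_le _ v
  have claim1 : ∀ s, e ⊓ c s ≤ a s := by
    intro s
    refine (inf_le_inf_right _ (hele s)).trans ?_
    rw [iSup_inf_eq]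
    refine iSup_le fun w => ?_
    rw [iSup_inf_eq]
    refine iSup_le fun hw => ?_
    refine (hc w s (ne_of_gt hw)).trans (sup_le ?_ ?_)
    · exact inf_le_right.trans inf_le_left
    · exact inf_le_left
  have heb : e ≤ b := by
    obtain ⟨v, -⟩ := hW.bdd ∅ countable_empty
    have h1 : e ≤ ⨆ w, c w := (hele v).trans (iSup_le fun w => iSup_le fun _ => le_iSup c w)
    rw [← inf_eq_left.2 h1, inf_iSup_eq]
    exact iSup_le fun w => (claim1 w).trans (hC.le w)
  have haw : ∀ {w : W} {U : Ultra B}, e ∈ U → c w ∈ U → a w ∈ U := fun {w} {U} h1 h2 =>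
    Ultra.mono (Ultra.inf_iff.2 ⟨h1, h2⟩) (claim1 w)
  set Cn : bSet B := bSet.mk (ULift.{u} W) (fun w => τ w.down) (fun w => c w.down) with hCn
  have hchain : ∀ U : Ultra B, e ∈ U → ChainIn (E U) (q U T) (q U R) (q U Cn) := by
    intro U hU
    refine ⟨fun m hm => ?_, fun m m' hm hm' => ?_⟩
    · obtain ⟨Z, rfl⟩ := q_surj m
      refine of_mem (X := Cn) (Z := Z) (P := fun U => E U (q U Z) (q U T)) (Q := fun U => e ∈ U)
        (BV.mem _ _) (BV.of_mem e) (fun w U hw hZ heU => ?_) hm hU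
      rw [hZ]
      exact hC.mem w.down U (haw heU hw)
    · obtain ⟨Z, rfl⟩ := q_surj m
      obtain ⟨Z', rfl⟩ := q_surj m'
      refine of_mem (X := Cn) (Z := Z)
        (P := fun U => q U Z = q U Z' ∨ App (E U) (q U R) (q U Z) (q U Z') ∨
          App (E U) (q U R) (q U Z') (q U Z))
        (Q := fun U => e ∈ U ∧ E U (q U Z') (q U Cn))
        ((BV.eq _ _).or ((BV.app _ _ _).or (BV.app _ _ _))) ((BV.of_mem e).and (BV.mem _ _))
        (fun w U hw hZ hQ => ?_) hm ⟨hU, hm'⟩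
      refine of_mem (X := Cn) (Z := Z')
        (P := fun U => q U Z = q U Z' ∨ App (E U) (q U R) (q U Z) (q U Z') ∨
          App (E U) (q U R) (q U Z') (q U Z))
        (Q := fun U => e ∈ U ∧ c w.down ∈ U ∧ q U Z = q U (τ w.down))
        ((BV.eq _ _).or ((BV.app _ _ _).or (BV.app _ _ _)))
        ((BV.of_mem e).and ((BV.of_mem _).and (BV.eq _ _)))
        (fun w' U hw' hZ' hQ' => ?_) hQ.2 ⟨hQ.1, hw, hZ⟩
      obtain ⟨h1, h2, h3⟩ := hQ'
      have hZ'' : q U Z' = q U (τ w'.down) := hZ'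
      have hw'' : c w'.down ∈ U := hw'
      rw [h3, hZ'']
      by_cases hww : w.down = w'.down
      · rw [hww]
        exact Or.inl rfl
      · have h4 := Ultra.mono (Ultra.inf_iff.2 ⟨h2, hw''⟩) (hc _ _ hww)
        rcases Ultra.sup_iff.1 h4 with h5 | h5
        · exact Or.inr (Or.inl (mem_treeB.1 h5).2.2)
        · exact Or.inr (Or.inr (mem_treeB.1 h5).2.2)
  obtain ⟨f, hf⟩ := exists_name (P := fun U f => IsInj (E U) f (q U Cn) (q U omega))
    (fun x => BV_isInj x Cn omega)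
  obtain ⟨e', h1, h2, v, h3⟩ := bdd_of_inj hB hW he c τ f Cn
    (fun U hU => hf U (isCtbl_iff.1 (hch U (Ultra.mono hU heb) _ (hchain U hU))))
    (fun s U hU hs => E_func (X := Cn) (ULift.up s) hs)
    (fun s s' U hss hU hs hs' => hC.ne s s' U hss (haw hU hs) (haw hU hs'))
  apply h2
  have h4 : e' ≤ ⨆ w, ⨆ _ : v < w, c w := h1.trans (hele v)
  rw [← inf_eq_left.2 h4, inf_iSup_eq, ← le_bot_iff]
  refine iSup_le fun w => ?_
  rw [inf_iSup_eq]
  exact iSup_le fun hw => (h3 w hw).le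

end Pool.Agent.Lib.STD
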